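import Mathlib

/-!
# Veblen hypergraphs, rootings, associated coefficients and the coefficient threshold

All vertex sets are finite subsets of a finite linearly ordered type `V`.  A multi-hypergraph is
given by its multiset of edges; its vertex set is the set of vertices lying on an edge (Veblen
hypergraphs have no isolated vertices as far as the sums below are concerned).
-/

namespace Pool.Agent.Helper113_veblen

open Finset
open scoped Classical

/-- A finite multi-hypergraph with vertices in `V`: the multiset of its edges. -/
abbrev MultiHG (V : Type) := Multiset (Finset V)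

variable {V : Type} [Fintype V] [LinearOrder V]

/-- The degree of `v`, counted with multiplicity. -/
noncomputable def degree (H : MultiHG V) (v : V) : ℕ := H.countP (fun e => v ∈ e)

/-- The vertex set of `H`. -/
noncomputable def verts (H : MultiHG V) : Finset V := univ.filter fun v => ∃ e ∈ H, v ∈ e

/-- `H` is a Veblen hypergraph: it is `k`-uniform and all degrees are divisible by `k`. -/
def IsVeblen (k : ℕ) (H : MultiHG V) : Prop :=
  (∀ e ∈ H, e.card = k) ∧ ∀ v, k ∣ degree H v

/-- `H` has at least one edge and is connected: any two edges are linked by a chain of edges of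
`H` in which consecutive edges intersect. -/
def IsConn (H : MultiHG V) : Prop :=
  H ≠ 0 ∧ ∀ e ∈ H, ∀ f ∈ H,
    Relation.ReflTransGen (fun a b : Finset V => b ∈ H ∧ (a ∩ b).Nonempty) e f

/-- A sequence of `d` stars; the `i`-th star is `S_e(v)` with `(v, e) = R i`. -/
abbrev StarSeq (V : Type) (d : ℕ) := Fin d → V × Finset V

/-- `R = (S_{e_1}(v_1), …, S_{e_d}(v_d))` is a rooting of `H`: `v_i ∈ e_i`,
`v_1 ≤ … ≤ v_d` and `{e_1, …, e_d}` is the edge multiset of `H`. -/
def IsRooting {d : ℕ} (H : MultiHG V) (R : StarSeq V d) : Prop :=
  (∀ i, (R i).1 ∈ (R i).2) ∧ (Monotone fun i => (R i).1) ∧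
    (univ : Finset (Fin d)).val.map (fun i => (R i).2) = H

/-- The multiplicity of the arc `u w` in the digraph `D_R`, the union of the stars of `R`. -/
noncomputable def arc {d : ℕ} (R : StarSeq V d) (u w : V) : ℕ :=
  (univ.filter fun i : Fin d => (R i).1 = u ∧ w ∈ (R i).2 ∧ w ≠ u).card

/-- In-degree in the multi-digraph with arc multiplicities `a`. -/
def inDeg (a : V → V → ℕ) (v : V) : ℕ := ∑ u, a u v

/-- Out-degree in the multi-digraph with arc multiplicities `a`. -/
def outDeg (a : V → V → ℕ) (v : V) : ℕ := ∑ w, a v w

/-- The vertex set of the multi-digraph: the vertices incident with an arc. -/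
noncomputable def dverts (a : V → V → ℕ) : Finset V :=
  univ.filter fun v => 0 < inDeg a v + outDeg a v

/-- The multi-digraph is Eulerian: in-degrees and out-degrees agree and it is connected. -/
def IsEulerian (a : V → V → ℕ) : Prop :=
  (∀ v, inDeg a v = outDeg a v) ∧
    ∀ u ∈ dverts a, ∀ w ∈ dverts a,
      Relation.ReflTransGen (fun x y => 0 < a x y ∨ 0 < a y x) u w

/-- The number of spanning arborescences, directed towards `r`, of the multi-digraph with vertex
set `S` and arc multiplicities `a`.  An arborescence is given by the map `f` sending a vertex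
`v ≠ r` of `S` to the head of the arc leaving `v` (and fixing everything else); following `f`
one has to reach `r` from every vertex of `S`.  Parallel arcs are counted separately. -/
noncomputable def arborescences (a : V → V → ℕ) (S : Finset V) (r : V) : ℕ :=
  ∑ f ∈ univ.filter (fun f : V → V => (∀ v, (v ∉ S ∨ v = r) → f v = v) ∧
      ∀ v ∈ S, f^[Fintype.card V] v = r), ∏ v ∈ S.erase r, a v (f v)

/-- `τ_D`: the number of arborescences with a specified root (the least vertex of `D`). -/
noncomputable def tau (a : V → V → ℕ) : ℕ :=
  if h : (dverts a).Nonempty then arborescences a (dverts a) ((dverts a).min' h) else 0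

/-- The sum of `τ_D / ∏ deg⁻_D(v)` over all `D = D_R`, `R` a rooting of `H` with `d` stars and
`D_R` Eulerian. -/
noncomputable def assocCoeffAux (H : MultiHG V) (d : ℕ) : ℚ :=
  ∑ R ∈ univ.filter (fun R : StarSeq V d => IsRooting H R ∧ IsEulerian (arc R)),
    (tau (arc R) : ℚ) / ∏ v ∈ dverts (arc R), (inDeg (arc R) v : ℚ)

/-- The associated coefficient `C_H` of a connected Veblen hypergraph. -/
noncomputable def assocCoeff (H : MultiHG V) : ℚ := assocCoeffAux H (Multiset.card H)

/-- Relabelling the vertices of `H` by a permutation. -/
def relabel (σ : Equiv.Perm V) (H : MultiHG V) : MultiHG V :=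
  H.map (fun e => e.map σ.toEmbedding)

/-- Isomorphism of multi-hypergraphs. -/
def Iso (H H' : MultiHG V) : Prop := ∃ σ : Equiv.Perm V, relabel σ H = H'

/-- `|Aut(H)|`: the number of permutations of the vertex set of `H` (extended by the identity)
that preserve `H`. -/
noncomputable def autCard (H : MultiHG V) : ℕ :=
  (univ.filter fun σ : Equiv.Perm V => relabel σ H = H ∧ ∀ v, v ∉ verts H → σ v = v).card

/-- The flattening of `H`: duplicate edges are removed. -/
noncomputable def flat (H : MultiHG V) : MultiHG V := H.dedup

/-- The number of sub-hypergraphs `S` of the hypergraph with edge set `E` that are isomorphic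
to `F`. -/
noncomputable def copies (E : Finset (Finset V)) (F : MultiHG V) : ℕ :=
  (E.powerset.filter fun S => Iso F S.val).card

/-- `G` is a connected Veblen hypergraph whose flattening is contained in the hypergraph with
edge set `E`. -/
def IsInfra (k : ℕ) (E : Finset (Finset V)) (G : MultiHG V) : Prop :=
  IsVeblen k G ∧ IsConn G ∧ ∀ e ∈ G, e ∈ E

/-- The connected Veblen hypergraphs whose flattening is contained in the hypergraph `E`. -/
abbrev Infra (k : ℕ) (E : Finset (Finset V)) := {G : MultiHG V // IsInfra k E G}

theorem relabel_one (H : MultiHG V) : relabel (1 : Equiv.Perm V) H = H := by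
  unfold relabel
  conv_rhs => rw [← Multiset.map_id H]
  apply Multiset.map_congr rfl
  intro e _
  ext x
  simp only [Finset.mem_map_equiv, id]
  exact Iff.rfl

theorem relabel_mul (σ τ : Equiv.Perm V) (H : MultiHG V) :
    relabel (σ * τ) H = relabel σ (relabel τ H) := by
  unfold relabel
  rw [Multiset.map_map]
  apply Multiset.map_congr rfl
  intro e _
  ext x
  simp only [Finset.mem_map_equiv, Function.comp]
  exact Iff.rfl

/-- Isomorphism is an equivalence relation. -/
def infraSetoid (k : ℕ) (E : Finset (Finset V)) : Setoid (Infra k E) where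
  r G G' := Iso G.1 G'.1
  iseqv :=
    { refl := fun G => ⟨1, relabel_one _⟩
      symm := by
        rintro G G' ⟨σ, h⟩
        refine ⟨σ⁻¹, ?_⟩
        rw [← h, ← relabel_mul, inv_mul_cancel, relabel_one]
      trans := by
        rintro G G' G'' ⟨σ, h⟩ ⟨τ, h'⟩
        refine ⟨τ * σ, ?_⟩
        rw [relabel_mul, h, h'] }

/-- The isomorphism classes of connected Veblen hypergraphs whose flattening is isomorphic to a
sub-hypergraph of `E`. -/
def Cls (k : ℕ) (E : Finset (Finset V)) := Quotient (infraSetoid k E)

/-- A representative of an isomorphism class. -/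
noncomputable def rep {k : ℕ} {E : Finset (Finset V)} (c : Cls k E) : MultiHG V :=
  (Quotient.out c).1

/-- An isomorphism class of (possibly disconnected) Veblen hypergraphs all of whose components
have their flattening in `E`: the number `n c` of components in each isomorphism class `c`. -/
abbrev Ver (k : ℕ) (E : Finset (Finset V)) := Cls k E →₀ ℕ

section
variable {k : ℕ} {E : Finset (Finset V)}

/-- The number of edges. -/
noncomputable def numEdges (n : Ver k E) : ℕ := n.sum fun c r => r * Multiset.card (rep c)

/-- The number `c(H)` of connected components. -/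
noncomputable def numComp (n : Ver k E) : ℕ := n.sum fun _ r => r

/-- `C_H`, the product of the associated coefficients of the components. -/
noncomputable def coeffOf (n : Ver k E) : ℚ := n.prod fun c r => assocCoeff (rep c) ^ r

/-- `|Aut(H)|` for `H` with `n c` components in the class `c`. -/
noncomputable def autCardOf (n : Ver k E) : ℕ :=
  n.prod fun c r => r.factorial * autCard (rep c) ^ r

/-- `(#H ⊆ E) = |Aut(H)|⁻¹ ∏ |Aut(flat G_i)| |{S ⊆ E : S ≅ flat G_i}|`. -/
noncomputable def occ (n : Ver k E) : ℚ :=
  (1 / (autCardOf n : ℚ)) *
    n.prod fun c r => ((autCard (flat (rep c)) : ℚ) * (copies E (flat (rep c)) : ℚ)) ^ r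

end

/-- The sum `∑_{H ∈ V*_d(E)} (-(k-1)^v)^{c(H)} C_H (#H ⊆ E)`. -/
noncomputable def codegCoeff (k v : ℕ) (E : Finset (Finset V)) (d : ℕ) : ℚ :=
  ∑ᶠ H : {n : Ver k E // numEdges n = d},
    (-((k : ℚ) - 1) ^ v) ^ numComp H.1 * coeffOf H.1 * occ H.1

/-- `T` is the coefficient `v`-threshold `Th_v(E)`: the least `T` such that the sum above
vanishes for all `d > T`.  (For `d = 0` the sum is `1`, so negative `T` cannot occur.) -/
def IsThreshold (k v : ℕ) (E : Finset (Finset V)) (T : ℕ) : Prop :=
  IsLeast {T : ℕ | ∀ d, T < d → codegCoeff k v E d = 0} T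

end Pool.Agent.Helper113_veblen
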