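import Mathlib

namespace Pool.Agent.Helper113_veblen

open Finset

section
variable {ι : Type} (s : ι → ℕ) (u : ι → ℚ)

/-- exponential weight -/
noncomputable def wt (n : ι →₀ ℕ) : ℚ := n.prod fun i r => u i ^ r / (r.factorial : ℚ)

/-- size -/
noncomputable def sz (n : ι →₀ ℕ) : ℕ := n.sum fun i r => r * s i

theorem finite_sz (hs : ∀ i, 0 < s i) (hf : ∀ d, {i | s i ≤ d}.Finite) (d : ℕ) :
    {n : ι →₀ ℕ | sz s n = d}.Finite := by
  classical
  set S := (hf d).toFinset with hS
  apply Set.Finite.subset (Set.finite_Iic (Finsupp.indicator S (fun _ _ => d)))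
  intro n hn
  rw [Set.mem_ofPred_eq] at hn
  rw [Set.mem_Iic]
  intro i
  by_cases hi : n i = 0
  · rw [hi]; exact Nat.zero_le _
  · have h1 : n i * s i ≤ d := by
      rw [← hn]
      unfold sz Finsupp.sum
      exact Finset.single_le_sum (f := fun a => n a * s a) (fun _ _ => Nat.zero_le _)
        (Finsupp.mem_support_iff.2 hi)
    have h2 := hs i
    have h3 : s i ≤ d := by nlinarith [Nat.pos_of_ne_zero hi]
    have h4 : n i ≤ d := by nlinarith
    rw [Finsupp.indicator_of_mem]
    · exact h4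
    · rw [hS, Set.Finite.mem_toFinset]; exact h3

theorem wt_add_single (n : ι →₀ ℕ) (i : ι) :
    ((n i + 1 : ℕ) : ℚ) * wt u (n + Finsupp.single i 1) = u i * wt u n := by
  classical
  have hsup1 : (n + Finsupp.single i 1).support ⊆ insert i n.support := by
    intro j hj
    rw [Finsupp.mem_support_iff, Finsupp.add_apply] at hj
    by_cases hji : j = i
    · rw [hji]; exact mem_insert_self _ _
    · rw [Finsupp.single_apply, if_neg (Ne.symm hji), add_zero] at hj
      exact mem_insert_of_mem (Finsupp.mem_support_iff.2 hj)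
  have hsup2 : n.support ⊆ insert i n.support := subset_insert _ _
  unfold wt
  rw [Finsupp.prod_of_support_subset _ hsup1 _ (by intros; simp),
    Finsupp.prod_of_support_subset _ hsup2 _ (by intros; simp),
    ← Finset.mul_prod_erase _ _ (mem_insert_self i n.support),
    ← Finset.mul_prod_erase (insert i n.support) (fun x => u x ^ n x / ((n x).factorial : ℚ))
      (mem_insert_self i n.support)]
  have he : ∀ x ∈ (insert i n.support).erase i,
      u x ^ ((n + Finsupp.single i 1 : ι →₀ ℕ) x) / ((((n + Finsupp.single i 1 : ι →₀ ℕ)) x).factorial : ℚ)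
        = u x ^ n x / ((n x).factorial : ℚ) := by
    intro x hx
    have hxi : x ≠ i := (mem_erase.1 hx).1
    rw [Finsupp.add_apply, Finsupp.single_apply, if_neg (Ne.symm hxi), add_zero]
  rw [Finset.prod_congr rfl he]
  rw [Finsupp.add_apply, Finsupp.single_apply, if_pos rfl, Nat.factorial_succ, pow_succ]
  have h1 : ((n i).factorial : ℚ) ≠ 0 := by positivity
  have h2 : ((n i + 1 : ℕ) : ℚ) ≠ 0 := by positivity
  rw [Nat.cast_mul]
  field_simp

theorem sz_add_single (n : ι →₀ ℕ) (i : ι) : sz s (n + Finsupp.single i 1) = sz s n + s i := by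
  classical
  unfold sz
  rw [Finsupp.sum_add_index' (by simp) (by intros; ring), Finsupp.sum_single_index (by simp)]
  ring

variable (hs : ∀ i, 0 < s i) (hf : ∀ d, {i | s i ≤ d}.Finite)

/-- the sum of the weights of all `n` of size `d` -/
noncomputable def cf (d : ℕ) : ℚ := ∑ᶠ n : {n : ι →₀ ℕ // sz s n = d}, wt u n.1

include hs hf in
theorem cf_eq (d : ℕ) : cf s u d = ∑ n ∈ (finite_sz s hs hf d).toFinset, wt u n := by
  unfold cf
  rw [finsum_subtype_eq_finsum_cond (f := fun n => wt u n) (fun n => sz s n = d)]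
  exact finsum_mem_eq_finite_toFinset_sum _ (finite_sz s hs hf d)

include hs hf in
theorem cf_zero : cf s u 0 = 1 := by
  classical
  rw [cf_eq s u hs hf]
  have : (finite_sz s hs hf 0).toFinset = {0} := by
    ext n
    rw [Set.Finite.mem_toFinset, Set.mem_ofPred_eq, mem_singleton]
    constructor
    · intro h
      ext i
      by_contra hi
      have hi' : n i ≠ 0 := by simpa using hi
      unfold sz Finsupp.sum at h
      have := (Finset.sum_eq_zero_iff.1 h) i (Finsupp.mem_support_iff.2 hi')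
      have h2 := hs i
      rcases Nat.mul_eq_zero.1 this with h3 | h3
      · exact hi' h3
      · omega
    · rintro rfl
      simp [sz]
  rw [this, sum_singleton]
  simp [wt]

include hs in
theorem recur_aux (d : ℕ) : (d : ℚ) * cf s u d =
    ∑ i ∈ (hf d).toFinset, (s i : ℚ) * u i * cf s u (d - s i) := by
  classical
  rw [cf_eq s u hs hf, mul_sum]
  have h1 : ∀ n ∈ (finite_sz s hs hf d).toFinset, (d : ℚ) * wt u n =
      ∑ i ∈ n.support, (s i : ℚ) * u i * wt u (n - Finsupp.single i 1) := by
    intro n hn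
    rw [Set.Finite.mem_toFinset, Set.mem_ofPred_eq] at hn
    have hd : (d : ℚ) = ∑ i ∈ n.support, (n i : ℚ) * s i := by
      rw [← hn]; unfold sz Finsupp.sum; push_cast; rfl
    rw [hd, sum_mul]
    apply sum_congr rfl
    intro i hi
    have hni : n i ≠ 0 := Finsupp.mem_support_iff.1 hi
    have hle : Finsupp.single i 1 ≤ n := by
      rw [Finsupp.single_le_iff]; omega
    have h2 := wt_add_single u (n - Finsupp.single i 1) i
    rw [tsub_add_cancel_of_le hle] at h2
    have h3 : (n - Finsupp.single i 1 : ι →₀ ℕ) i + 1 = n i := by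
      rw [Finsupp.tsub_apply, Finsupp.single_apply, if_pos rfl]; omega
    rw [h3] at h2
    linear_combination (s i : ℚ) * h2
  rw [sum_congr rfl h1]
  have h2 : ∀ i ∈ (hf d).toFinset, (s i : ℚ) * u i * cf s u (d - s i) =
      ∑ n ∈ (finite_sz s hs hf (d - s i)).toFinset, (s i : ℚ) * u i * wt u n := by
    intro i _
    rw [cf_eq s u hs hf, mul_sum]
  rw [sum_congr rfl h2, sum_sigma', sum_sigma']
  refine Finset.sum_bij' (fun p _ => ⟨p.2, p.1 - Finsupp.single p.2 1⟩)
    (fun p _ => ⟨p.2 + Finsupp.single p.1 1, p.1⟩) ?_ ?_ ?_ ?_ ?_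
  · rintro ⟨n, i⟩ hp
    simp only [mem_sigma, Set.Finite.mem_toFinset, Set.mem_ofPred_eq] at hp ⊢
    obtain ⟨hn, hi⟩ := hp
    have hni : n i ≠ 0 := Finsupp.mem_support_iff.1 hi
    have hle : Finsupp.single i 1 ≤ n := by
      rw [Finsupp.single_le_iff]; omega
    have h3 := sz_add_single s (n - Finsupp.single i 1) i
    rw [tsub_add_cancel_of_le hle, hn] at h3
    exact ⟨by omega, by omega⟩
  · rintro ⟨i, n⟩ hp
    simp only [mem_sigma, Set.Finite.mem_toFinset, Set.mem_ofPred_eq] at hp ⊢
    obtain ⟨hi, hn⟩ := hp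
    refine ⟨?_, ?_⟩
    · rw [sz_add_single, hn]; omega
    · rw [Finsupp.mem_support_iff, Finsupp.add_apply, Finsupp.single_apply, if_pos rfl]; omega
  · rintro ⟨n, i⟩ hp
    simp only [mem_sigma, Set.Finite.mem_toFinset, Set.mem_ofPred_eq] at hp
    obtain ⟨hn, hi⟩ := hp
    have hni : n i ≠ 0 := Finsupp.mem_support_iff.1 hi
    have hle : Finsupp.single i 1 ≤ n := by
      rw [Finsupp.single_le_iff]; omega
    simp [tsub_add_cancel_of_le hle]
  · rintro ⟨i, n⟩ _
    simp
  · rintro ⟨n, i⟩ _
    rfl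

include hs in
/-- Newton-type recurrence for the exponential formula. -/
theorem recur (A : ℕ → ℚ) (hA : ∀ j, ∑ i ∈ (hf j).toFinset with s i = j, u i = A j) (d : ℕ) :
    (d : ℚ) * cf s u d = ∑ j ∈ Icc 1 d, (j : ℚ) * A j * cf s u (d - j) := by
  classical
  rw [recur_aux s u hs hf d]
  have hmaps : ∀ i ∈ (hf d).toFinset, s i ∈ Icc 1 d := by
    intro i hi
    rw [Set.Finite.mem_toFinset, Set.mem_ofPred_eq] at hi
    rw [mem_Icc]; exact ⟨hs i, hi⟩
  rw [← Finset.sum_fiberwise_of_maps_to hmaps]
  apply sum_congr rfl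
  intro j hj
  have hj' := mem_Icc.1 hj
  have hfe : ((hf d).toFinset.filter fun i => s i = j) = (hf j).toFinset.filter fun i => s i = j := by
    ext i
    simp only [mem_filter, Set.Finite.mem_toFinset, Set.mem_ofPred_eq]
    constructor
    · rintro ⟨_, h⟩; exact ⟨h.le, h⟩
    · rintro ⟨_, h⟩; exact ⟨by omega, h⟩
  rw [hfe, ← hA j, mul_sum, sum_mul]
  apply sum_congr rfl
  intro i hi
  rw [(mem_filter.1 hi).2]

end

/-- closed form of the recurrence -/
theorem closed (c : ℕ → ℚ) (h0 : c 0 = 1) (q : ℚ) (a : ℕ)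
    (h : ∀ d : ℕ, (d : ℚ) * c d = ∑ j ∈ Icc 1 d, (if 3 ∣ j then -3 * (a : ℚ) * q ^ (j / 3) else 0) * c (d - j)) :
    (∀ d : ℕ, ¬ 3 ∣ d → c d = 0) ∧ ∀ r : ℕ, ((r : ℚ) + 1) * c (3 * (r + 1)) = q * ((r : ℚ) - a) * c (3 * r) := by
  have hnd : ∀ d : ℕ, ¬ 3 ∣ d → c d = 0 := by
    intro d
    induction d using Nat.strong_induction_on with
    | _ d ih =>
      intro hd
      have hd0 : (d : ℚ) ≠ 0 := by
        have : d ≠ 0 := by rintro rfl; exact hd (dvd_zero _)
        exact_mod_cast this
      have h1 := h d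
      have h2 : ∑ j ∈ Icc 1 d, (if 3 ∣ j then -3 * (a : ℚ) * q ^ (j / 3) else 0) * c (d - j) = 0 := by
        apply sum_eq_zero
        intro j hj
        have hj' := mem_Icc.1 hj
        by_cases h3 : 3 ∣ j
        · rw [ih (d - j) (by omega) (by omega), mul_zero]
        · rw [if_neg h3, zero_mul]
      rw [h2] at h1
      exact (mul_eq_zero.1 h1).resolve_left hd0
  refine ⟨hnd, ?_⟩
  -- y r = ∑_{m=1}^r q^m c(3(r-m))
  set y : ℕ → ℚ := fun r => ∑ m ∈ range r, q ^ (m + 1) * c (3 * (r - 1 - m)) with hy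
  have hstep : ∀ r, y (r + 1) = q * c (3 * r) + q * y r := by
    intro r
    simp only [hy]
    rw [Finset.sum_range_succ']
    simp only [Nat.add_sub_cancel, zero_add, pow_one, Nat.sub_zero]
    rw [add_comm, mul_sum]
    congr 1
    apply sum_congr rfl
    intro m hm
    have hm' := mem_range.1 hm
    have : r - (m + 1) = r - 1 - m := by omega
    rw [this]; ring
  have hmain : ∀ r : ℕ, (r : ℚ) * c (3 * r) = -(a : ℚ) * y r := by
    intro r
    have h1 := h (3 * r)
    have h2 : ∑ j ∈ Icc 1 (3 * r), (if 3 ∣ j then -3 * (a : ℚ) * q ^ (j / 3) else 0) * c (3 * r - j)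
        = -3 * (a : ℚ) * y r := by
      simp only [hy]
      rw [mul_sum]
      have : ∑ j ∈ Icc 1 (3 * r), (if 3 ∣ j then -3 * (a : ℚ) * q ^ (j / 3) else 0) * c (3 * r - j)
          = ∑ j ∈ (range r).image (fun m => 3 * (m + 1)),
            (if 3 ∣ j then -3 * (a : ℚ) * q ^ (j / 3) else 0) * c (3 * r - j) := by
        symm
        apply sum_subset
        · intro j hj
          obtain ⟨m, hm, rfl⟩ := mem_image.1 hj
          have := mem_range.1 hm
          rw [mem_Icc]; omega
        · intro j hj hj2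
          have hj' := mem_Icc.1 hj
          by_cases h3 : 3 ∣ j
          · exfalso
            apply hj2
            obtain ⟨t, rfl⟩ := h3
            exact mem_image.2 ⟨t - 1, mem_range.2 (by omega), by omega⟩
          · rw [if_neg h3, zero_mul]
      rw [this, sum_image (by intro x _ y _ hxy; simpa using hxy)]
      apply sum_congr rfl
      intro m hm
      have hm' := mem_range.1 hm
      rw [if_pos (Dvd.intro _ rfl), Nat.mul_div_cancel_left _ (by norm_num)]
      have : 3 * r - 3 * (m + 1) = 3 * (r - 1 - m) := by omega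
      rw [this]; ring
    rw [h2] at h1
    push_cast at h1
    linear_combination h1 / 3
  intro r
  have h1 := hmain (r + 1)
  have h2 := hmain r
  rw [hstep r] at h1
  push_cast at h1
  linear_combination h1 - q * h2

end Pool.Agent.Helper113_veblen
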