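import Mathlib
import Pool.Agent.Helper113_veblen.Defs
import Pool.Agent.Helper113_veblen.Recur

namespace Pool.Agent.Helper113_veblen

open Finset
open scoped Classical

section
variable {V : Type} [Fintype V] [LinearOrder V]

theorem mem_verts (K : MultiHG V) (v : V) : v ∈ verts K ↔ ∃ e ∈ K, v ∈ e := by
  unfold verts
  rw [mem_filter]
  simp

theorem mem_relabel (σ : Equiv.Perm V) (K : MultiHG V) (e : Finset V) :
    e ∈ relabel σ K ↔ ∃ f ∈ K, f.map σ.toEmbedding = e := by
  unfold relabel
  rw [Multiset.mem_map]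

theorem card_relabel (σ : Equiv.Perm V) (K : MultiHG V) :
    Multiset.card (relabel σ K) = Multiset.card K := by
  unfold relabel; rw [Multiset.card_map]

/-- stabiliser -/
noncomputable def Stab (K : MultiHG V) : Finset (Equiv.Perm V) :=
  univ.filter fun σ => relabel σ K = K

/-- permutations fixing the vertices of `K` -/
noncomputable def Pfix (K : MultiHG V) : Finset (Equiv.Perm V) :=
  univ.filter fun σ => ∀ v ∈ verts K, σ v = v

theorem relabel_congr (σ τ : Equiv.Perm V) (K : MultiHG V) (h : ∀ v ∈ verts K, σ v = τ v) :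
    relabel σ K = relabel τ K := by
  unfold relabel
  apply Multiset.map_congr rfl
  intro e he
  ext x
  rw [Finset.mem_map, Finset.mem_map]
  constructor
  · rintro ⟨y, hy, rfl⟩
    exact ⟨y, hy, (h y ((mem_verts K y).2 ⟨e, he, hy⟩)).symm⟩
  · rintro ⟨y, hy, rfl⟩
    exact ⟨y, hy, h y ((mem_verts K y).2 ⟨e, he, hy⟩)⟩

theorem verts_relabel (σ : Equiv.Perm V) (K : MultiHG V) (v : V) :
    σ v ∈ verts (relabel σ K) ↔ v ∈ verts K := by
  rw [mem_verts, mem_verts]
  constructor
  · rintro ⟨e, he, hv⟩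
    obtain ⟨f, hf, rfl⟩ := (mem_relabel σ K e).1 he
    refine ⟨f, hf, ?_⟩
    obtain ⟨y, hy, hyv⟩ := Finset.mem_map.1 hv
    have : y = v := σ.injective hyv
    rwa [← this]
  · rintro ⟨f, hf, hv⟩
    exact ⟨f.map σ.toEmbedding, (mem_relabel σ K _).2 ⟨f, hf, rfl⟩, Finset.mem_map.2 ⟨v, hv, rfl⟩⟩

theorem card_Stab (K : MultiHG V) : (Stab K).card = autCard K * (Pfix K).card := by
  unfold autCard
  rw [← card_product]
  symm
  refine Finset.card_bij (fun p _ => p.1 * p.2) ?_ ?_ ?_
  · rintro ⟨α, π⟩ hp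
    rw [mem_product] at hp
    obtain ⟨h1, h2⟩ := hp
    obtain ⟨_, h1, h1'⟩ := mem_filter.1 h1
    unfold Pfix at h2
    obtain ⟨_, h2⟩ := mem_filter.1 h2
    unfold Stab
    rw [mem_filter]
    refine ⟨mem_univ _, ?_⟩
    simp only at h1 h2 ⊢
    rw [relabel_mul, relabel_congr π 1 K (by intro v hv; rw [h2 v hv]; rfl), relabel_one, h1]
  · rintro ⟨α, π⟩ hp ⟨α', π'⟩ hp' heq
    rw [mem_product] at hp hp'
    obtain ⟨_, h1, h1'⟩ := mem_filter.1 hp.1
    obtain ⟨_, g1, g1'⟩ := mem_filter.1 hp'.1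
    have h2 := hp.2
    have g2 := hp'.2
    unfold Pfix at h2 g2
    obtain ⟨_, h2⟩ := mem_filter.1 h2
    obtain ⟨_, g2⟩ := mem_filter.1 g2
    simp only at h1' g1' h2 g2 heq
    have hα : α = α' := by
      ext v
      by_cases hv : v ∈ verts K
      · have e1 : (α * π) v = α v := by rw [Equiv.Perm.mul_apply, h2 v hv]
        have e2 : (α' * π') v = α' v := by rw [Equiv.Perm.mul_apply, g2 v hv]
        rw [← e1, ← e2, heq]
      · rw [h1' v hv, g1' v hv]
    subst hα
    have hπ : π = π' := mul_left_cancel heq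
    rw [hπ]
  · intro σ hσ
    unfold Stab at hσ
    obtain ⟨_, hσ⟩ := mem_filter.1 hσ
    have hpres : ∀ x, σ x ∈ verts K ↔ x ∈ verts K := by
      intro x
      have := verts_relabel σ K x
      rwa [hσ] at this
    set α : Equiv.Perm V := Equiv.Perm.ofSubtype (σ.subtypePerm hpres) with hα
    have hα1 : ∀ v ∈ verts K, α v = σ v := by
      intro v hv
      rw [hα, Equiv.Perm.ofSubtype_apply_of_mem _ hv]
      rfl
    have hα2 : ∀ v, v ∉ verts K → α v = v := by
      intro v hv
      rw [hα, Equiv.Perm.ofSubtype_apply_of_not_mem _ hv]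
    refine ⟨(α, α⁻¹ * σ), ?_, by simp⟩
    rw [mem_product]
    refine ⟨mem_filter.2 ⟨mem_univ _, ?_, hα2⟩, ?_⟩
    · simp only
      rw [relabel_congr α σ K hα1, hσ]
    · unfold Pfix
      rw [mem_filter]
      refine ⟨mem_univ _, ?_⟩
      intro v hv
      simp only
      rw [Equiv.Perm.mul_apply, ← hα1 v hv]
      simp

theorem card_image_relabel (K : MultiHG V) (T : Finset (Equiv.Perm V))
    (hT : ∀ σ ∈ T, ∀ τ ∈ Stab K, σ * τ ∈ T) :
    T.card = (T.image (fun σ => relabel σ K)).card * (Stab K).card := by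
  rw [Finset.card_eq_sum_card_image (fun σ => relabel σ K) T, ← smul_eq_mul, ← sum_const]
  apply sum_congr rfl
  intro b hb
  obtain ⟨σ0, hσ0, rfl⟩ := mem_image.1 hb
  symm
  refine Finset.card_bij (fun τ _ => σ0 * τ) ?_ ?_ ?_
  · intro τ hτ
    rw [mem_filter]
    refine ⟨hT σ0 hσ0 τ hτ, ?_⟩
    unfold Stab at hτ
    rw [relabel_mul, (mem_filter.1 hτ).2]
  · intro τ _ τ' _ h
    exact mul_left_cancel h
  · intro σ hσ
    rw [mem_filter] at hσ
    refine ⟨σ0⁻¹ * σ, ?_, by simp⟩
    unfold Stab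
    rw [mem_filter]
    refine ⟨mem_univ _, ?_⟩
    rw [relabel_mul, hσ.2, ← relabel_mul, inv_mul_cancel, relabel_one]

/-- permutations placing `g` inside `E` -/
noncomputable def Tset (E : Finset (Finset V)) (g : MultiHG V) : Finset (Equiv.Perm V) :=
  univ.filter fun σ => ∀ e ∈ g, e.map σ.toEmbedding ∈ E

theorem mem_flat (g : MultiHG V) (e : Finset V) : e ∈ flat g ↔ e ∈ g := by
  unfold flat; exact Multiset.mem_dedup

theorem verts_flat (g : MultiHG V) : verts (flat g) = verts g := by
  ext v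
  rw [mem_verts, mem_verts]
  simp only [mem_flat]

theorem Pfix_flat (g : MultiHG V) : Pfix (flat g) = Pfix g := by
  unfold Pfix; rw [verts_flat]

theorem nodup_relabel_flat (σ : Equiv.Perm V) (g : MultiHG V) : (relabel σ (flat g)).Nodup := by
  unfold relabel flat
  apply Multiset.Nodup.map
  · exact Finset.map_injective _
  · exact Multiset.nodup_dedup _

theorem copies_eq (E : Finset (Finset V)) (g : MultiHG V) :
    copies E (flat g) = ((Tset E g).image (fun σ => relabel σ (flat g))).card := by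
  unfold copies
  refine Finset.card_bij (fun S _ => S.val) ?_ ?_ ?_
  · intro S hS
    obtain ⟨hS1, σ, hσ⟩ := mem_filter.1 hS
    rw [mem_image]
    refine ⟨σ, ?_, hσ⟩
    unfold Tset
    rw [mem_filter]
    refine ⟨mem_univ _, ?_⟩
    intro e he
    apply mem_powerset.1 hS1
    rw [← Finset.mem_val, ← hσ, mem_relabel]
    exact ⟨e, (mem_flat g e).2 he, rfl⟩
  · intro S _ S' _ h
    exact Finset.val_injective h
  · intro b hb
    obtain ⟨σ, hσ, rfl⟩ := mem_image.1 hb
    unfold Tset at hσ
    have hσ' := (mem_filter.1 hσ).2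
    refine ⟨⟨relabel σ (flat g), nodup_relabel_flat σ g⟩, ?_, rfl⟩
    rw [mem_filter]
    refine ⟨?_, σ, rfl⟩
    rw [mem_powerset]
    intro e he
    have he' : e ∈ relabel σ (flat g) := he
    obtain ⟨f, hf, rfl⟩ := (mem_relabel _ _ _).1 he'
    exact hσ' f ((mem_flat g f).1 hf)

/-- The number of copies of `g` in `E`. -/
theorem count_copies (E : Finset (Finset V)) (g : MultiHG V) :
    ((Tset E g).image (fun σ => relabel σ g)).card * autCard g
      = autCard (flat g) * copies E (flat g) := by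
  have h1 := card_image_relabel g (Tset E g) (by
    intro σ hσ τ hτ
    unfold Tset at hσ ⊢
    unfold Stab at hτ
    have hσ' := (mem_filter.1 hσ).2
    have hτ' := (mem_filter.1 hτ).2
    rw [mem_filter]
    refine ⟨mem_univ _, ?_⟩
    intro e he
    have : e.map τ.toEmbedding ∈ g := by
      rw [← hτ', mem_relabel]; exact ⟨e, he, rfl⟩
    have h3 := hσ' _ this
    rw [Finset.map_map] at h3
    exact h3)
  have h2 := card_image_relabel (flat g) (Tset E g) (by
    intro σ hσ τ hτ
    unfold Tset at hσ ⊢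
    unfold Stab at hτ
    have hσ' := (mem_filter.1 hσ).2
    have hτ' := (mem_filter.1 hτ).2
    rw [mem_filter]
    refine ⟨mem_univ _, ?_⟩
    intro e he
    have : e.map τ.toEmbedding ∈ g := by
      rw [← mem_flat, ← hτ', mem_relabel]; exact ⟨e, (mem_flat g e).2 he, rfl⟩
    have h3 := hσ' _ this
    rw [Finset.map_map] at h3
    exact h3)
  rw [card_Stab] at h1 h2
  rw [Pfix_flat, ← copies_eq] at h2
  have hpos : 0 < (Pfix g).card := by
    rw [card_pos]
    refine ⟨1, ?_⟩
    unfold Pfix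
    rw [mem_filter]
    exact ⟨mem_univ _, fun _ _ => rfl⟩
  have h3 := h1.symm.trans h2
  apply Nat.eq_of_mul_eq_mul_right hpos
  rw [mul_assoc, h3]
  ring

theorem autCard_pos (g : MultiHG V) : 0 < autCard g := by
  unfold autCard
  rw [card_pos]
  refine ⟨1, ?_⟩
  rw [mem_filter]
  exact ⟨mem_univ _, relabel_one g, fun _ _ => rfl⟩

theorem degree_relabel (σ : Equiv.Perm V) (g : MultiHG V) (v : V) :
    degree (relabel σ g) (σ v) = degree g v := by
  unfold degree relabel
  rw [Multiset.countP_map, Multiset.countP_eq_card_filter]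
  congr 1
  apply Multiset.filter_congr
  intro e _
  constructor
  · intro h
    obtain ⟨y, hy, hyv⟩ := Finset.mem_map.1 h
    have : y = v := σ.injective hyv
    rwa [← this]
  · intro h
    exact Finset.mem_map.2 ⟨v, h, rfl⟩

theorem infra_relabel {k : ℕ} {E : Finset (Finset V)} (g : MultiHG V) (hg : IsInfra k E g)
    (σ : Equiv.Perm V) (hσ : ∀ e ∈ g, e.map σ.toEmbedding ∈ E) : IsInfra k E (relabel σ g) := by
  obtain ⟨⟨h1, h2⟩, ⟨h3, h4⟩, h5⟩ := hg
  refine ⟨⟨?_, ?_⟩, ⟨?_, ?_⟩, ?_⟩
  · intro e he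
    obtain ⟨f, hf, rfl⟩ := (mem_relabel _ _ _).1 he
    rw [card_map]; exact h1 f hf
  · intro v
    have := degree_relabel σ g (σ.symm v)
    rw [Equiv.apply_symm_apply] at this
    rw [this]; exact h2 _
  · intro h
    apply h3
    rw [← Multiset.card_eq_zero, ← card_relabel σ g, h]; rfl
  · intro e he f hf
    obtain ⟨e', he', rfl⟩ := (mem_relabel _ _ _).1 he
    obtain ⟨f', hf', rfl⟩ := (mem_relabel _ _ _).1 hf
    refine Relation.ReflTransGen.lift (fun a : Finset V => a.map σ.toEmbedding) ?_ _ _ (h4 e' he' f' hf')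
    rintro a b ⟨hb, x, hx⟩
    refine ⟨(mem_relabel _ _ _).2 ⟨b, hb, rfl⟩, σ x, ?_⟩
    rw [mem_inter] at hx ⊢
    exact ⟨Finset.mem_map.2 ⟨x, hx.1, rfl⟩, Finset.mem_map.2 ⟨x, hx.2, rfl⟩⟩
  · intro e he
    obtain ⟨f, hf, rfl⟩ := (mem_relabel _ _ _).1 he
    exact hσ f hf

theorem finite_mhg (L : ℕ) : {g : MultiHG V | Multiset.card g ≤ L}.Finite := by
  apply Set.Finite.subset (Finset.finite_toSet (L • (univ : Finset (Finset V)).val).powerset.toFinset)
  intro g hg
  rw [Finset.mem_coe, Multiset.mem_toFinset, Multiset.mem_powerset, Multiset.le_iff_count]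
  intro e
  have h1 : Multiset.count e g ≤ L := le_trans (Multiset.count_le_card _ _) hg
  rw [Multiset.count_nsmul, Multiset.count_eq_one_of_mem (univ : Finset (Finset V)).nodup (mem_univ e)]
  omega

end

section
variable {V : Type} [Fintype V] [LinearOrder V] (k v : ℕ) (E : Finset (Finset V))

theorem finite_infra (L : ℕ) : {g : Infra k E | Multiset.card g.1 ≤ L}.Finite :=
  Set.Finite.preimage (Subtype.val_injective.injOn) (finite_mhg L)

/-- infragraphs with `L` edges -/
noncomputable def SL (L : ℕ) : Finset (Infra k E) :=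
  (finite_infra k E L).toFinset.filter fun g => Multiset.card g.1 = L

theorem mem_SL (L : ℕ) (g : Infra k E) : g ∈ SL k E L ↔ Multiset.card g.1 = L := by
  unfold SL
  rw [mem_filter, Set.Finite.mem_toFinset]
  constructor
  · exact fun h => h.2
  · exact fun h => ⟨h.le, h⟩

/-- the class of `g` -/
def cls {k : ℕ} {E : Finset (Finset V)} (g : Infra k E) : Cls k E := Quotient.mk _ g

/-- size of a class -/
noncomputable def cs (c : Cls k E) : ℕ := Multiset.card (rep c)

/-- weight of a class -/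
noncomputable def cu (c : Cls k E) : ℚ :=
  -((k : ℚ) - 1) ^ v * assocCoeff (rep c) *
    ((autCard (flat (rep c)) : ℚ) * (copies E (flat (rep c)) : ℚ)) / (autCard (rep c) : ℚ)

theorem rep_iso (g : Infra k E) : Iso (rep (cls g)) g.1 := by
  have := Quotient.mk_out (s := infraSetoid k E) g
  exact this

theorem iso_card {g g' : MultiHG V} (h : Iso g g') : Multiset.card g = Multiset.card g' := by
  obtain ⟨σ, rfl⟩ := h
  rw [card_relabel]

theorem cs_cls (g : Infra k E) : cs k E (cls g) = Multiset.card g.1 := iso_card (rep_iso k E g)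

theorem cs_pos (c : Cls k E) : 0 < cs k E c := by
  unfold cs rep
  have := (Quotient.out c).2.2.1.1
  exact Multiset.card_pos.2 this

theorem cls_rep (c : Cls k E) : cls (Quotient.out c) = c := Quotient.out_eq c

theorem finite_cls (d : ℕ) : {c : Cls k E | cs k E c ≤ d}.Finite := by
  apply Set.Finite.subset ((finite_infra k E d).image cls)
  intro c hc
  exact ⟨Quotient.out c, hc, cls_rep k E c⟩

theorem codeg_eq (d : ℕ) : codegCoeff k v E d = cf (cs k E) (cu k v E) d := by
  unfold codegCoeff cf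
  apply finsum_congr
  intro H
  obtain ⟨n, hn⟩ := H
  simp only
  unfold wt occ coeffOf autCardOf numComp
  unfold Finsupp.prod Finsupp.sum
  rw [← Finset.prod_pow_eq_pow_sum]
  push_cast
  rw [one_div, ← Finset.prod_inv_distrib, ← prod_mul_distrib, ← prod_mul_distrib, ← prod_mul_distrib]
  apply prod_congr rfl
  intro c _
  unfold cu
  rw [div_pow, mul_pow, mul_pow, mul_inv]
  ring

theorem fiber_card (c : Cls k E) :
    (((SL k E (cs k E c)).filter fun g => cls g = c).card : ℚ)
      = ((autCard (flat (rep c)) : ℚ) * (copies E (flat (rep c)) : ℚ)) / (autCard (rep c) : ℚ) := by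
  have hpos : (autCard (rep c) : ℚ) ≠ 0 := by
    have := autCard_pos (rep c)
    positivity
  rw [eq_div_iff hpos]
  have h := count_copies E (rep c)
  have hcard : ((SL k E (cs k E c)).filter fun g => cls g = c).card
      = ((Tset E (rep c)).image (fun σ => relabel σ (rep c))).card := by
    refine Finset.card_bij (fun g _ => g.1) ?_ ?_ ?_
    · intro g hg
      obtain ⟨hg1, hg2⟩ := mem_filter.1 hg
      have hiso : Iso (rep c) g.1 := by rw [← hg2]; exact rep_iso k E g
      obtain ⟨σ, hσ⟩ := hiso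
      rw [mem_image]
      refine ⟨σ, ?_, hσ⟩
      unfold Tset
      rw [mem_filter]
      refine ⟨mem_univ _, ?_⟩
      intro e he
      apply g.2.2.2
      rw [← hσ, mem_relabel]
      exact ⟨e, he, rfl⟩
    · intro g _ g' _ h
      exact Subtype.ext h
    · intro b hb
      obtain ⟨σ, hσ, rfl⟩ := mem_image.1 hb
      unfold Tset at hσ
      have hσ' := (mem_filter.1 hσ).2
      have hinf := infra_relabel (rep c) (Quotient.out c).2 σ hσ'
      refine ⟨⟨relabel σ (rep c), hinf⟩, ?_, rfl⟩
      rw [mem_filter, mem_SL]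
      refine ⟨card_relabel σ (rep c), ?_⟩
      conv_rhs => rw [← cls_rep k E c]
      apply Quotient.sound
      exact (infraSetoid k E).symm' ⟨σ, rfl⟩
  rw [hcard]
  exact_mod_cast h

/-- The sum of the class weights is the sum over all infragraphs. -/
theorem sum_cls (hinv : ∀ g g' : Infra k E, Iso g.1 g'.1 → assocCoeff g.1 = assocCoeff g'.1) (j : ℕ) :
    ∑ c ∈ (finite_cls k E j).toFinset with cs k E c = j, cu k v E c
      = -((k : ℚ) - 1) ^ v * ∑ g ∈ SL k E j, assocCoeff g.1 := by
  have hmaps : ∀ g ∈ SL k E j, cls g ∈ (finite_cls k E j).toFinset.filter fun c => cs k E c = j := by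
    intro g hg
    rw [mem_SL] at hg
    rw [mem_filter, Set.Finite.mem_toFinset]
    have h1 := cs_cls k E g
    rw [hg] at h1
    exact ⟨h1.le, h1⟩
  rw [← Finset.sum_fiberwise_of_maps_to hmaps, mul_sum]
  apply sum_congr rfl
  intro c hc
  have hcj := (mem_filter.1 hc).2
  have : ∀ g ∈ (SL k E j).filter fun g => cls g = c, assocCoeff g.1 = assocCoeff (rep c) := by
    intro g hg
    have hg2 := (mem_filter.1 hg).2
    have hiso : Iso (rep c) g.1 := by rw [← hg2]; exact rep_iso k E g
    exact (hinv (Quotient.out c) g hiso).symm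
  rw [sum_congr rfl this, sum_const, nsmul_eq_mul]
  have hf := fiber_card k E c
  rw [hcj] at hf
  rw [hf]
  unfold cu
  ring

end

end Pool.Agent.Helper113_veblen
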