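import Mathlib
import Pool.Agent.Helper113_veblen.Defs

namespace Pool.Agent.Helper113_veblen

open Finset
open scoped Classical

abbrev e1 : Finset (Fin 4) := {0, 1, 2}
abbrev e2 : Finset (Fin 4) := {0, 1, 3}

theorem e1_ne_e2 : e1 ≠ e2 := by decide

theorem mf {α : Type} {p : α → Prop} {inst : DecidablePred p} {s : Finset α} {a : α} :
    a ∈ @Finset.filter α p inst s ↔ a ∈ s ∧ p a := Finset.mem_filter

/-- `3i` copies of `e1` and `3j` copies of `e2` -/
def HG (i j : ℕ) : MultiHG (Fin 4) := Multiset.replicate (3 * i) e1 + Multiset.replicate (3 * j) e2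

/-- arc matrix -/
def aM (p0 p1 p2 q0 q1 q3 : ℕ) : Fin 4 → Fin 4 → ℕ :=
  ![![0, p0 + q0, p0, q0], ![p1 + q1, 0, p1, q1], ![p2, p2, 0, 0], ![q3, q3, 0, 0]]

def L16 : List (Fin 4 → Fin 4) :=
  [![0, 0, 0, 0], ![0, 0, 0, 1], ![0, 0, 0, 2], ![0, 0, 1, 0], ![0, 0, 1, 1], ![0, 0, 1, 2],
   ![0, 0, 3, 0], ![0, 0, 3, 1], ![0, 2, 0, 0], ![0, 2, 0, 1], ![0, 2, 0, 2], ![0, 2, 3, 0],
   ![0, 3, 0, 0], ![0, 3, 0, 2], ![0, 3, 1, 0], ![0, 3, 3, 0]]

theorem arb_univ (a : Fin 4 → Fin 4 → ℕ) :
    arborescences a univ 0 = (L16.map (fun f => a 1 (f 1) * (a 2 (f 2) * a 3 (f 3)))).sum := by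
  rw [← List.sum_toFinset _ (show L16.Nodup by decide +kernel)]
  unfold arborescences
  apply sum_congr
  · ext f
    refine mf.trans ?_
    rw [List.mem_toFinset]
    simp only [mem_univ, true_and]
    revert f
    decide +kernel
  · intro f _
    trans ∏ v ∈ ({1, 2, 3} : Finset (Fin 4)), a v (f v)
    · apply prod_congr _ (fun _ _ => rfl)
      ext x
      refine (@Finset.mem_erase _ _ _ _ _).trans ?_
      revert x
      decide
    · rw [prod_insert (by decide), prod_insert (by decide), prod_singleton]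

def L3a : List (Fin 4 → Fin 4) := [![0, 0, 0, 3], ![0, 0, 1, 3], ![0, 2, 0, 3]]
def L3b : List (Fin 4 → Fin 4) := [![0, 0, 2, 0], ![0, 0, 2, 1], ![0, 3, 2, 0]]

theorem arb_a (a : Fin 4 → Fin 4 → ℕ) :
    arborescences a {0, 1, 2} 0 = (L3a.map (fun f => a 1 (f 1) * a 2 (f 2))).sum := by
  rw [← List.sum_toFinset _ (show L3a.Nodup by decide +kernel)]
  unfold arborescences
  apply sum_congr
  · ext f
    refine mf.trans ?_
    rw [List.mem_toFinset]
    simp only [mem_univ, true_and]
    revert f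
    decide +kernel
  · intro f _
    trans ∏ v ∈ ({1, 2} : Finset (Fin 4)), a v (f v)
    · apply prod_congr _ (fun _ _ => rfl)
      ext x
      refine (@Finset.mem_erase _ _ _ _ _).trans ?_
      revert x
      decide
    · rw [prod_insert (by decide), prod_singleton]

theorem arb_b (a : Fin 4 → Fin 4 → ℕ) :
    arborescences a {0, 1, 3} 0 = (L3b.map (fun f => a 1 (f 1) * a 3 (f 3))).sum := by
  rw [← List.sum_toFinset _ (show L3b.Nodup by decide +kernel)]
  unfold arborescences
  apply sum_congr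
  · ext f
    refine mf.trans ?_
    rw [List.mem_toFinset]
    simp only [mem_univ, true_and]
    revert f
    decide +kernel
  · intro f _
    trans ∏ v ∈ ({1, 3} : Finset (Fin 4)), a v (f v)
    · apply prod_congr _ (fun _ _ => rfl)
      ext x
      refine (@Finset.mem_erase _ _ _ _ _).trans ?_
      revert x
      decide
    · rw [prod_insert (by decide), prod_singleton]

/-- Value of `τ / ∏ deg⁻` for a balanced arc matrix. -/
theorem value (i j p0 p1 p2 q0 q1 q3 : ℕ) (hm : 0 < i + j) (h2 : p2 = i) (h3 : q3 = j)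
    (h0 : p0 + q0 = i + j) (h1 : p1 + q1 = i + j) (hp : p0 + p1 = 2 * i) (hq : q0 + q1 = 2 * j) :
    (tau (aM p0 p1 p2 q0 q1 q3) : ℚ) / ∏ v ∈ dverts (aM p0 p1 p2 q0 q1 q3),
      (inDeg (aM p0 p1 p2 q0 q1 q3) v : ℚ) = 3 / (8 * ((i + j : ℕ) : ℚ)) := by
  subst h2 h3
  have hin : ∀ v, inDeg (aM p0 p1 p2 q0 q1 q3) v = ![2 * (p2 + q3), 2 * (p2 + q3), 2 * p2, 2 * q3] v := by
    intro v
    unfold inDeg
    rw [Fin.sum_univ_four]
    fin_cases v <;> simp [aM] <;> omega
  have hout : ∀ v, outDeg (aM p0 p1 p2 q0 q1 q3) v = ![2 * (p2 + q3), 2 * (p2 + q3), 2 * p2, 2 * q3] v := by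
    intro v
    unfold outDeg
    rw [Fin.sum_univ_four]
    fin_cases v <;> simp [aM] <;> omega
  have hmem : ∀ v, v ∈ dverts (aM p0 p1 p2 q0 q1 q3) ↔ 0 < ![2 * (p2 + q3), 2 * (p2 + q3), 2 * p2, 2 * q3] v := by
    intro v
    unfold dverts
    rw [mem_filter, hin, hout]
    simp only [mem_univ, true_and]
    omega
  rcases Nat.eq_zero_or_pos p2 with hi | hi
  · -- i = 0
    have hj : 0 < q3 := by omega
    have hS : dverts (aM p0 p1 p2 q0 q1 q3) = {0, 1, 3} := by
      ext v
      rw [hmem]
      fin_cases v <;> simp [hi, hj]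
    have hp0 : p0 = 0 := by omega
    have hp1 : p1 = 0 := by omega
    have hq0 : q0 = q3 := by omega
    have hq1 : q1 = q3 := by omega
    have htau : tau (aM p0 p1 p2 q0 q1 q3) = 3 * q3 ^ 2 := by
      unfold tau
      have hne : (dverts (aM p0 p1 p2 q0 q1 q3)).Nonempty := by rw [hS]; exact ⟨0, by decide⟩
      rw [dif_pos hne]
      have hmin : (dverts (aM p0 p1 p2 q0 q1 q3)).min' hne = 0 := by
        apply le_antisymm
        · apply min'_le; rw [hS]; decide
        · exact Fin.zero_le _
      rw [hmin, hS, arb_b]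
      simp [L3b, aM, hp0, hp1, hi, hq0, hq1]
      ring
    rw [htau, hS, prod_insert (by decide), prod_insert (by decide), prod_singleton]
    simp only [hin]
    have hq : (q3 : ℚ) ≠ 0 := by positivity
    simp [hi]
    field_simp
    ring
  · rcases Nat.eq_zero_or_pos q3 with hj | hj
    · have hS : dverts (aM p0 p1 p2 q0 q1 q3) = {0, 1, 2} := by
        ext v
        rw [hmem]
        fin_cases v <;> simp [hi, hj]
      have hq0 : q0 = 0 := by omega
      have hq1 : q1 = 0 := by omega
      have hp0 : p0 = p2 := by omega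
      have hp1 : p1 = p2 := by omega
      have htau : tau (aM p0 p1 p2 q0 q1 q3) = 3 * p2 ^ 2 := by
        unfold tau
        have hne : (dverts (aM p0 p1 p2 q0 q1 q3)).Nonempty := by rw [hS]; exact ⟨0, by decide⟩
        rw [dif_pos hne]
        have hmin : (dverts (aM p0 p1 p2 q0 q1 q3)).min' hne = 0 := by
          apply le_antisymm
          · apply min'_le; rw [hS]; decide
          · exact Fin.zero_le _
        rw [hmin, hS, arb_a]
        simp [L3a, aM, hp0, hp1, hj, hq0, hq1]
        ring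
      rw [htau, hS, prod_insert (by decide), prod_insert (by decide), prod_singleton]
      simp only [hin]
      have hq : (p2 : ℚ) ≠ 0 := by positivity
      simp [hj]
      field_simp
      ring
    · have hS : dverts (aM p0 p1 p2 q0 q1 q3) = univ := by
        ext v
        rw [hmem]
        fin_cases v <;> simp [hi, hj]
      have htau : tau (aM p0 p1 p2 q0 q1 q3) = 6 * p2 * q3 * (p2 + q3) := by
        unfold tau
        have hne : (dverts (aM p0 p1 p2 q0 q1 q3)).Nonempty := by rw [hS]; exact ⟨0, by decide⟩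
        rw [dif_pos hne]
        have hmin : (dverts (aM p0 p1 p2 q0 q1 q3)).min' hne = 0 := by
          apply le_antisymm
          · apply min'_le; rw [hS]; exact mem_univ _
          · exact Fin.zero_le _
        rw [hmin, hS, arb_univ]
        simp [L16, aM]
        rw [← h1]
        ring
      rw [htau, hS, Fin.prod_univ_four]
      simp only [hin]
      have hq : (q3 : ℚ) ≠ 0 := by positivity
      have hp' : (p2 : ℚ) ≠ 0 := by positivity
      have hpq : (p2 : ℚ) + q3 ≠ 0 := by positivity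
      simp
      field_simp
      ring

end Pool.Agent.Helper113_veblen
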