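import Mathlib
import Pool.Agent.Helper113_veblen.Roots

namespace Pool.Agent.Helper113_veblen

open Finset
open scoped Classical

/-- Eulerian condition for the arc matrix. -/
theorem euler_iff (i j p0 p1 p2 q0 q1 q3 : ℕ) (hm : 0 < i + j) (hp : p0 + p1 + p2 = 3 * i)
    (hq : q0 + q1 + q3 = 3 * j) : IsEulerian (aM p0 p1 p2 q0 q1 q3) ↔
      (p2 = i ∧ q3 = j ∧ p0 + q0 = i + j ∧ p1 + q1 = i + j) := by
  constructor
  · rintro ⟨hb, -⟩
    have b0 := hb 0
    have b1 := hb 1
    have b2 := hb 2
    have b3 := hb 3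
    unfold inDeg outDeg at b0 b1 b2 b3
    rw [Fin.sum_univ_four, Fin.sum_univ_four] at b0 b1 b2 b3
    simp [aM] at b0 b1 b2 b3
    omega
  · rintro ⟨h2, h3, h0, h1⟩
    subst h2 h3
    refine ⟨?_, ?_⟩
    · intro v
      unfold inDeg outDeg
      rw [Fin.sum_univ_four, Fin.sum_univ_four]
      fin_cases v <;> simp [aM] <;> omega
    · set a := aM p0 p1 p2 q0 q1 q3 with ha
      set rel := fun x y : Fin 4 => 0 < a x y ∨ 0 < a y x with hrel
      have key : ∀ v ∈ dverts a, Relation.ReflTransGen rel v 0 ∧ Relation.ReflTransGen rel 0 v := by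
        intro v hv
        have hv' : 0 < inDeg a v + outDeg a v := (mf.1 hv).2
        unfold inDeg outDeg at hv'
        rw [Fin.sum_univ_four, Fin.sum_univ_four] at hv'
        by_cases hv0 : v = 0
        · subst hv0; exact ⟨Relation.ReflTransGen.refl, Relation.ReflTransGen.refl⟩
        · have hpos : 0 < a v 0 := by
            fin_cases v
            · exact absurd rfl hv0
            · simp [ha, aM]; omega
            · simp [ha, aM] at hv' ⊢; omega
            · simp [ha, aM] at hv' ⊢; omega
          exact ⟨Relation.ReflTransGen.single (Or.inl hpos), Relation.ReflTransGen.single (Or.inr hpos)⟩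
      intro u hu w hw
      exact (key u hu).1.trans (key w hw).2

section
variable {d : ℕ} (R : StarSeq (Fin 4) d)

/-- number of stars with given root and edge -/
noncomputable def cnt (v : Fin 4) (e : Finset (Fin 4)) : ℕ :=
  (univ.filter fun t : Fin d => R t = (v, e)).card

/-- number of stars with given root -/
noncomputable def rts (v : Fin 4) : ℕ := (univ.filter fun t : Fin d => (R t).1 = v).card

theorem arc_formula (hedge : ∀ t, (R t).2 = e1 ∨ (R t).2 = e2) (u w : Fin 4) :
    arc R u w = (if w ≠ u ∧ w ∈ e1 then cnt R u e1 else 0)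
      + (if w ≠ u ∧ w ∈ e2 then cnt R u e2 else 0) := by
  have hpt : ∀ t, (if ((R t).1 = u ∧ w ∈ (R t).2 ∧ w ≠ u) then 1 else 0) =
      (if w ≠ u ∧ w ∈ e1 then (if R t = (u, e1) then 1 else 0) else 0)
        + (if w ≠ u ∧ w ∈ e2 then (if R t = (u, e2) then 1 else 0) else 0) := by
    intro t
    have hne := e1_ne_e2
    rcases hR : R t with ⟨v, e⟩
    have he := hedge t
    rw [hR] at he
    rcases he with he | he
    · simp only at he; subst he
      by_cases hv : v = u <;> by_cases hw : w = u <;> by_cases hw1 : w ∈ e1 <;>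
        simp [hv, hw, hw1, hne, Prod.ext_iff]
    · simp only at he; subst he
      by_cases hv : v = u <;> by_cases hw : w = u <;> by_cases hw1 : w ∈ e2 <;>
        simp [hv, hw, hw1, hne.symm, Prod.ext_iff]
  unfold arc cnt
  simp only [card_filter]
  rw [sum_congr rfl (fun t _ => hpt t), sum_add_distrib]
  congr 1
  · by_cases h : w ≠ u ∧ w ∈ e1
    · simp only [if_pos h]
    · simp only [if_neg h, sum_const_zero]
  · by_cases h : w ≠ u ∧ w ∈ e2
    · simp only [if_pos h]
    · simp only [if_neg h, sum_const_zero]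

theorem rts_eq (hedge : ∀ t, (R t).2 = e1 ∨ (R t).2 = e2) (v : Fin 4) :
    rts R v = cnt R v e1 + cnt R v e2 := by
  unfold rts cnt
  simp only [card_filter]
  rw [← sum_add_distrib]
  apply sum_congr rfl
  intro t _
  have hne := e1_ne_e2
  rcases hR : R t with ⟨v', e⟩
  have he := hedge t
  rw [hR] at he
  rcases he with he | he
  · simp only at he; subst he
    by_cases hv : v' = v <;> simp [hv, hne, Prod.ext_iff]
  · simp only at he; subst he
    by_cases hv : v' = v <;> simp [hv, hne.symm, Prod.ext_iff]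

theorem sum_cnt (e : Finset (Fin 4)) :
    (univ.filter fun t : Fin d => (R t).2 = e).card = cnt R 0 e + cnt R 1 e + cnt R 2 e + cnt R 3 e := by
  unfold cnt
  simp only [card_filter]
  rw [← sum_add_distrib, ← sum_add_distrib, ← sum_add_distrib]
  apply sum_congr rfl
  intro t _
  rcases hR : R t with ⟨v', e'⟩
  by_cases he : e' = e
  · subst he
    fin_cases v' <;> simp [Prod.ext_iff]
  · simp [he, Prod.ext_iff]

theorem cnt_zero (hroot : ∀ t, (R t).1 ∈ (R t).2) (v : Fin 4) (e : Finset (Fin 4)) (h : v ∉ e) :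
    cnt R v e = 0 := by
  unfold cnt
  rw [card_eq_zero]
  apply filter_eq_empty_iff.2
  intro t _ ht
  have := hroot t
  rw [ht] at this
  exact h this

theorem arc_eq (hedge : ∀ t, (R t).2 = e1 ∨ (R t).2 = e2) (hroot : ∀ t, (R t).1 ∈ (R t).2) :
    arc R = aM (cnt R 0 e1) (cnt R 1 e1) (cnt R 2 e1) (cnt R 0 e2) (cnt R 1 e2) (cnt R 3 e2) := by
  have h3 : cnt R 3 e1 = 0 := cnt_zero R hroot 3 e1 (by decide)
  have h2 : cnt R 2 e2 = 0 := cnt_zero R hroot 2 e2 (by decide)
  funext u w
  rw [arc_formula R hedge]
  fin_cases u <;> fin_cases w <;> simp [aM, h3, h2]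

end

theorem count_HG (i j : ℕ) : Multiset.count e1 (HG i j) = 3 * i ∧ Multiset.count e2 (HG i j) = 3 * j ∧
    Multiset.card (HG i j) = 3 * (i + j) ∧ ∀ e ∈ HG i j, e = e1 ∨ e = e2 := by
  unfold HG
  refine ⟨?_, ?_, ?_, ?_⟩
  · rw [Multiset.count_add, Multiset.count_replicate_self, Multiset.count_replicate,
      if_neg (by decide), add_zero]
  · rw [Multiset.count_add, Multiset.count_replicate_self, Multiset.count_replicate,
      if_neg (by decide), zero_add]
  · rw [Multiset.card_add, Multiset.card_replicate, Multiset.card_replicate]; ring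
  · intro e he
    rw [Multiset.mem_add] at he
    rcases he with he | he
    · left; exact (Multiset.mem_replicate.1 he).2
    · right; exact (Multiset.mem_replicate.1 he).2

theorem rooting_iff {d : ℕ} (i j : ℕ) (hd : d = 3 * (i + j)) (R : StarSeq (Fin 4) d) :
    IsRooting (HG i j) R ↔ (∀ t, (R t).1 ∈ (R t).2) ∧ (Monotone fun t => (R t).1) ∧
      (∀ t, (R t).2 = e1 ∨ (R t).2 = e2) ∧ (univ.filter fun t : Fin d => (R t).2 = e1).card = 3 * i := by
  obtain ⟨c1, c2, c3, c4⟩ := count_HG i j
  unfold IsRooting
  constructor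
  · rintro ⟨h1, h2, h3⟩
    refine ⟨h1, h2, ?_, ?_⟩
    · intro t
      apply c4
      rw [← h3]
      exact Multiset.mem_map_of_mem _ (mem_univ t)
    · rw [← c1, ← h3, Multiset.count_map]
      rw [Finset.card_def, Finset.filter_val]
      congr 1
      apply Multiset.filter_congr
      intro t _
      exact eq_comm
  · rintro ⟨h1, h2, h3, h4⟩
    refine ⟨h1, h2, ?_⟩
    have hc1 : Multiset.count e1 ((univ : Finset (Fin d)).val.map (fun t => (R t).2)) = 3 * i := by
      rw [← h4, Multiset.count_map, Finset.card_def, Finset.filter_val]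
      congr 1
      apply Multiset.filter_congr
      intro t _
      exact eq_comm
    have hsplit : (univ.filter fun t : Fin d => (R t).2 = e1).card
        + (univ.filter fun t : Fin d => (R t).2 = e2).card = d := by
      simp only [card_filter]
      rw [← sum_add_distrib]
      have : ∀ t : Fin d, ((if (R t).2 = e1 then 1 else 0) + (if (R t).2 = e2 then 1 else 0)) = 1 := by
        intro t
        have hne := e1_ne_e2
        rcases h3 t with h | h
        · rw [if_pos h, if_neg (by rw [h]; exact hne)]
        · rw [if_neg (by rw [h]; exact hne.symm), if_pos h]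
      rw [sum_congr rfl (fun t _ => this t)]
      simp
    have hc2 : Multiset.count e2 ((univ : Finset (Fin d)).val.map (fun t => (R t).2)) = 3 * j := by
      have : (univ.filter fun t : Fin d => (R t).2 = e2).card = 3 * j := by omega
      rw [← this, Multiset.count_map, Finset.card_def, Finset.filter_val]
      congr 1
      apply Multiset.filter_congr
      intro t _
      exact eq_comm
    ext e
    by_cases he1 : e = e1
    · rw [he1, hc1, c1]
    · by_cases he2 : e = e2
      · rw [he2, hc2, c2]
      · rw [Multiset.count_eq_zero_of_notMem, Multiset.count_eq_zero_of_notMem]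
        · intro h
          rcases c4 e h with h | h
          · exact he1 h
          · exact he2 h
        · intro h
          obtain ⟨t, _, ht⟩ := Multiset.mem_map.1 h
          rcases h3 t with h | h
          · exact he1 (ht.symm.trans h)
          · exact he2 (ht.symm.trans h)

/-- Eulerian rootings of `HG i j`. -/
theorem good_iff {d : ℕ} (i j : ℕ) (hm : 0 < i + j) (hd : d = 3 * (i + j)) (R : StarSeq (Fin 4) d)
    (hR : IsRooting (HG i j) R) :
    IsEulerian (arc R) ↔ (rts R 0 = i + j ∧ rts R 1 = i + j ∧ rts R 2 = i ∧ rts R 3 = j) := by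
  obtain ⟨h1, h2, h3, h4⟩ := (rooting_iff i j hd R).1 hR
  have hz3 : cnt R 3 e1 = 0 := cnt_zero R h1 3 e1 (by decide)
  have hz2 : cnt R 2 e2 = 0 := cnt_zero R h1 2 e2 (by decide)
  have hsplit : (univ.filter fun t : Fin d => (R t).2 = e1).card
      + (univ.filter fun t : Fin d => (R t).2 = e2).card = d := by
    simp only [card_filter]
    rw [← sum_add_distrib]
    have : ∀ t : Fin d, ((if (R t).2 = e1 then 1 else 0) + (if (R t).2 = e2 then 1 else 0)) = 1 := by
      intro t
      have hne := e1_ne_e2
      rcases h3 t with h | h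
      · rw [if_pos h, if_neg (by rw [h]; exact hne)]
      · rw [if_neg (by rw [h]; exact hne.symm), if_pos h]
    rw [sum_congr rfl (fun t _ => this t)]
    simp
  have s1 := sum_cnt R e1
  have s2 := sum_cnt R e2
  rw [h4] at s1
  have hs2 : (univ.filter fun t : Fin d => (R t).2 = e2).card = 3 * j := by omega
  rw [hs2] at s2
  rw [arc_eq R h3 h1, euler_iff i j _ _ _ _ _ _ hm (by omega) (by omega),
    rts_eq R h3, rts_eq R h3, rts_eq R h3, rts_eq R h3]
  omega

/-- the value of each term -/
theorem term_value {d : ℕ} (i j : ℕ) (hm : 0 < i + j) (hd : d = 3 * (i + j)) (R : StarSeq (Fin 4) d)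
    (hR : IsRooting (HG i j) R) (hE : IsEulerian (arc R)) :
    (tau (arc R) : ℚ) / ∏ v ∈ dverts (arc R), (inDeg (arc R) v : ℚ) = 3 / (8 * ((i + j : ℕ) : ℚ)) := by
  obtain ⟨h1, h2, h3, h4⟩ := (rooting_iff i j hd R).1 hR
  have hz3 : cnt R 3 e1 = 0 := cnt_zero R h1 3 e1 (by decide)
  have hz2 : cnt R 2 e2 = 0 := cnt_zero R h1 2 e2 (by decide)
  obtain ⟨g0, g1, g2, g3⟩ := (good_iff i j hm hd R hR).1 hE
  rw [rts_eq R h3] at g0 g1 g2 g3
  have s1 := sum_cnt R e1
  rw [h4] at s1
  rw [arc_eq R h3 h1]
  exact value i j _ _ _ _ _ _ hm (by omega) (by omega) (by omega) (by omega) (by omega) (by omega)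

end Pool.Agent.Helper113_veblen
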