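import Mathlib
import Pool.Agent.Helper113_veblen.Count

namespace Pool.Agent.Helper113_veblen

open Finset
open scoped Classical

theorem card_fin (n : ℕ) (P : ℕ → Prop) (S : Finset ℕ) (hS : ∀ t, t ∈ S ↔ (t < n ∧ P t))
    {i1 : DecidablePred fun t : Fin n => P t.val} :
    (@Finset.filter (Fin n) (fun t => P t.val) i1 univ).card = S.card := by
  rw [← card_map Fin.valEmbedding]
  congr 1
  ext t
  rw [mem_map, hS]
  constructor
  · rintro ⟨s, hs, rfl⟩
    exact ⟨s.2, (mf.1 hs).2⟩
  · rintro ⟨h1, h2⟩
    exact ⟨⟨t, h1⟩, mf.2 ⟨mem_univ _, h2⟩, rfl⟩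

/-- A lower set of `Fin n` with `K` elements. -/
theorem initial {n : ℕ} (g : Fin n → Fin 4) (hg : Monotone g) (c : Fin 4) (K : ℕ)
    (hK : (univ.filter fun t : Fin n => g t ≤ c).card = K) (t : Fin n) : g t ≤ c ↔ t.val < K := by
  constructor
  · intro h
    have hsub : (univ.filter fun s : Fin n => s.val < t.val + 1) ⊆ univ.filter fun s : Fin n => g s ≤ c := by
      intro s hs
      rw [mem_filter] at hs ⊢
      refine ⟨mem_univ _, le_trans (hg ?_) h⟩
      rw [Fin.le_def]; omega
    have hcard := card_le_card hsub
    rw [hK, card_fin n (fun s => s < t.val + 1) (range (t.val + 1))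
      (by intro s; rw [mem_range]; omega), card_range] at hcard
    omega
  · intro h
    by_contra hc
    have hsub : (univ.filter fun s : Fin n => g s ≤ c) ⊆ univ.filter fun s : Fin n => s.val < t.val := by
      intro s hs
      rw [mem_filter] at hs ⊢
      refine ⟨mem_univ _, ?_⟩
      by_contra hst
      apply hc
      refine le_trans (hg ?_) hs.2
      rw [Fin.le_def]; omega
    have hcard := card_le_card hsub
    rw [hK, card_fin n (fun s => s < t.val) (range t.val)
      (by intro s; rw [mem_range]; omega), card_range] at hcard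
    omega

/-- The rooting determined by a set of positions. -/
noncomputable def RA (i j d : ℕ) (A : Finset ℕ) : StarSeq (Fin 4) d := fun t =>
  if t.val < i + j then (0, if t.val ∈ A then e1 else e2)
  else if t.val < 2 * (i + j) then (1, if t.val ∈ A then e1 else e2)
  else if t.val < 2 * (i + j) + i then (2, e1) else (3, e2)

theorem RA_root (i j d : ℕ) (A : Finset ℕ) (t : Fin d) : ((RA i j d A t).1 = 0 ↔ t.val < i + j) ∧
    ((RA i j d A t).1 = 1 ↔ i + j ≤ t.val ∧ t.val < 2 * (i + j)) ∧
    ((RA i j d A t).1 = 2 ↔ 2 * (i + j) ≤ t.val ∧ t.val < 2 * (i + j) + i) ∧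
    ((RA i j d A t).1 = 3 ↔ 2 * (i + j) + i ≤ t.val) := by
  unfold RA
  split_ifs <;> simp <;> omega

theorem RA_edge (i j d : ℕ) (A : Finset ℕ) (hA : A ⊆ range (2 * (i + j))) (t : Fin d) :
    (RA i j d A t).2 = e1 ↔ (t.val ∈ A ∨ (2 * (i + j) ≤ t.val ∧ t.val < 2 * (i + j) + i)) := by
  have hne := e1_ne_e2
  have hA' : t.val ∈ A → t.val < 2 * (i + j) := fun h => mem_range.1 (hA h)
  unfold RA
  by_cases h : t.val ∈ A
  · have := hA' h
    split_ifs <;> simp [h]
  · split_ifs with h1 h2 h3 <;> simp [h, hne.symm] <;> omega

theorem card_count (i j : ℕ) (hm : 0 < i + j) :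
    (univ.filter (fun R : StarSeq (Fin 4) (3 * (i + j)) => IsRooting (HG i j) R ∧ IsEulerian (arc R))).card
      = (2 * (i + j)).choose (2 * i) := by
  set d := 3 * (i + j) with hd
  rw [show (2 * (i + j)).choose (2 * i) = (powersetCard (2 * i) (range (2 * (i + j)))).card by
    rw [card_powersetCard, card_range]]
  symm
  refine Finset.card_bij (fun A _ => RA i j d A) ?_ ?_ ?_
  · intro A hA
    rw [mem_powersetCard] at hA
    obtain ⟨hA1, hA2⟩ := hA
    rw [mem_filter]
    refine ⟨mem_univ _, ?_⟩
    have hroot : IsRooting (HG i j) (RA i j d A) := by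
      rw [rooting_iff i j hd]
      refine ⟨?_, ?_, ?_, ?_⟩
      · intro t
        unfold RA
        split_ifs <;> simp
      · intro s t hst
        rw [Fin.le_def] at hst
        show (RA i j d A s).1 ≤ (RA i j d A t).1
        unfold RA
        split_ifs <;> first | omega | simp
      · intro t
        unfold RA
        split_ifs <;> simp
      · have : (univ.filter fun t : Fin d => (RA i j d A t).2 = e1)
            = univ.filter fun t : Fin d => (t.val ∈ A ∨ (2 * (i + j) ≤ t.val ∧ t.val < 2 * (i + j) + i)) := by
          ext t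
          rw [mem_filter, mem_filter, RA_edge i j d A hA1]
        rw [this, card_fin d (fun t => t ∈ A ∨ (2 * (i + j) ≤ t ∧ t < 2 * (i + j) + i))
          (A ∪ Ico (2 * (i + j)) (2 * (i + j) + i))]
        swap
        · intro t
          have hA' : t ∈ A → t < 2 * (i + j) := fun h => mem_range.1 (hA1 h)
          simp only [mem_union, mem_Ico]
          constructor
          · intro h
            refine ⟨?_, h⟩
            rcases h with h | h
            · have := hA' h; omega
            · omega
          · rintro ⟨_, h⟩; exact h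
        rw [card_union_of_disjoint, hA2, Nat.card_Ico]
        · omega
        · rw [disjoint_left]
          intro t ht ht2
          have := mem_range.1 (hA1 ht)
          have := mem_Ico.1 ht2
          omega
    refine ⟨hroot, ?_⟩
    rw [good_iff i j hm hd _ hroot]
    unfold rts
    refine ⟨?_, ?_, ?_, ?_⟩
    · have : (univ.filter fun t : Fin d => (RA i j d A t).1 = 0) = univ.filter fun t : Fin d => t.val < i + j := by
        ext t; rw [mem_filter, mem_filter, (RA_root i j d A t).1]
      rw [this, card_fin d (fun t => t < i + j) (range (i + j)) (by intro t; rw [mem_range]; omega),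
        card_range]
    · have : (univ.filter fun t : Fin d => (RA i j d A t).1 = 1)
          = univ.filter fun t : Fin d => (i + j ≤ t.val ∧ t.val < 2 * (i + j)) := by
        ext t; rw [mem_filter, mem_filter, (RA_root i j d A t).2.1]
      rw [this, card_fin d (fun t => i + j ≤ t ∧ t < 2 * (i + j)) (Ico (i + j) (2 * (i + j)))
        (by intro t; rw [mem_Ico]; omega), Nat.card_Ico]; omega
    · have : (univ.filter fun t : Fin d => (RA i j d A t).1 = 2)
          = univ.filter fun t : Fin d => (2 * (i + j) ≤ t.val ∧ t.val < 2 * (i + j) + i) := by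
        ext t; rw [mem_filter, mem_filter, (RA_root i j d A t).2.2.1]
      rw [this, card_fin d (fun t => 2 * (i + j) ≤ t ∧ t < 2 * (i + j) + i)
        (Ico (2 * (i + j)) (2 * (i + j) + i)) (by intro t; rw [mem_Ico]; omega), Nat.card_Ico]; omega
    · have : (univ.filter fun t : Fin d => (RA i j d A t).1 = 3)
          = univ.filter fun t : Fin d => (2 * (i + j) + i ≤ t.val) := by
        ext t; rw [mem_filter, mem_filter, (RA_root i j d A t).2.2.2]
      rw [this, card_fin d (fun t => 2 * (i + j) + i ≤ t) (Ico (2 * (i + j) + i) d)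
        (by intro t; rw [mem_Ico]; omega), Nat.card_Ico]; omega
  · intro A hA B hB hAB
    rw [mem_powersetCard] at hA hB
    ext t
    by_cases ht : t < 2 * (i + j)
    · have htd : t < d := by omega
      have h1 := RA_edge i j d A hA.1 ⟨t, htd⟩
      have h2 := RA_edge i j d B hB.1 ⟨t, htd⟩
      rw [show RA i j d A = RA i j d B from hAB] at h1
      have h3 := h1.symm.trans h2
      simp only at h3
      constructor
      · intro h
        rcases h3.1 (Or.inl h) with h4 | h4
        · exact h4
        · omega
      · intro h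
        rcases h3.2 (Or.inl h) with h4 | h4
        · exact h4
        · omega
    · constructor
      · intro h; exact absurd (mem_range.1 (hA.1 h)) ht
      · intro h; exact absurd (mem_range.1 (hB.1 h)) ht
  · intro R hR
    rw [mem_filter] at hR
    obtain ⟨_, hroot, heul⟩ := hR
    obtain ⟨g0, g1, g2, g3⟩ := (good_iff i j hm hd R hroot).1 heul
    obtain ⟨h1, h2, h3, h4⟩ := (rooting_iff i j hd R).1 hroot
    -- positions of roots
    have hr0 : ∀ t, (R t).1 ≤ 0 ↔ t.val < i + j := by
      apply initial _ h2 0
      rw [← g0]; unfold rts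
      congr 1
      ext t
      simp only [mem_filter, mem_univ, true_and, Fin.le_zero_iff]
    have hr1 : ∀ t, (R t).1 ≤ 1 ↔ t.val < 2 * (i + j) := by
      apply initial _ h2 1
      rw [show 2 * (i + j) = rts R 0 + rts R 1 by omega]
      unfold rts
      simp only [card_filter]
      rw [← sum_add_distrib]
      apply sum_congr rfl
      intro t _
      rcases hv : R t with ⟨v, e⟩
      fin_cases v <;> simp
    have hr2 : ∀ t, (R t).1 ≤ 2 ↔ t.val < 2 * (i + j) + i := by
      apply initial _ h2 2
      rw [show 2 * (i + j) + i = rts R 0 + rts R 1 + rts R 2 by omega]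
      unfold rts
      simp only [card_filter]
      rw [← sum_add_distrib, ← sum_add_distrib]
      apply sum_congr rfl
      intro t _
      rcases hv : R t with ⟨v, e⟩
      fin_cases v <;> simp
    -- edges of the last positions
    have he2 : ∀ t, (R t).1 = 2 → (R t).2 = e1 := by
      intro t ht
      rcases h3 t with h | h
      · exact h
      · have := h1 t
        rw [ht, h] at this
        exact absurd this (by decide)
    have he3 : ∀ t, (R t).1 = 3 → (R t).2 = e2 := by
      intro t ht
      rcases h3 t with h | h
      · have := h1 t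
        rw [ht, h] at this
        exact absurd this (by decide)
      · exact h
    set A : Finset ℕ := (univ.filter fun t : Fin d => t.val < 2 * (i + j) ∧ (R t).2 = e1).map Fin.valEmbedding with hA
    have hmemA : ∀ t : Fin d, t.val ∈ A ↔ (t.val < 2 * (i + j) ∧ (R t).2 = e1) := by
      intro t
      rw [hA, mem_map]
      constructor
      · rintro ⟨s, hs, hst⟩
        have : s = t := Fin.ext hst
        rw [← this]
        exact (mem_filter.1 hs).2
      · intro h
        exact ⟨t, mem_filter.2 ⟨mem_univ _, h⟩, rfl⟩
    have hAsub : A ⊆ range (2 * (i + j)) := by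
      intro t ht
      rw [hA, mem_map] at ht
      obtain ⟨s, hs, rfl⟩ := ht
      rw [mem_range]
      exact (mem_filter.1 hs).2.1
    have hAcard : A.card = 2 * i := by
      rw [hA, card_map]
      have hsp : (univ.filter fun t : Fin d => (R t).2 = e1).card =
          (univ.filter fun t : Fin d => t.val < 2 * (i + j) ∧ (R t).2 = e1).card + rts R 2 := by
        unfold rts
        simp only [card_filter]
        rw [← sum_add_distrib]
        apply sum_congr rfl
        intro t _
        have a1 := hr1 t
        have a2 := he2 t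
        have a3 := he3 t
        have hne := e1_ne_e2
        rcases hv : R t with ⟨v, e⟩
        rw [hv] at a1 a2 a3
        simp only at a1 a2 a3
        fin_cases v
        · have : t.val < 2 * (i + j) := a1.1 (by decide)
          simp [this]
        · have : t.val < 2 * (i + j) := a1.1 (by decide)
          simp [this]
        · have : ¬ t.val < 2 * (i + j) := fun h => absurd (a1.2 h) (by decide)
          have he := a2 rfl
          simp [this, he]
        · have : ¬ t.val < 2 * (i + j) := fun h => absurd (a1.2 h) (by decide)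
          have he := a3 rfl
          simp [this, he, hne.symm]
      rw [h4, g2] at hsp
      omega
    refine ⟨A, mem_powersetCard.2 ⟨hAsub, hAcard⟩, ?_⟩
    funext t
    have r0 := hr0 t
    have r1 := hr1 t
    have r2 := hr2 t
    have a2 := he2 t
    have a3 := he3 t
    have b3 := h3 t
    have hm' := hmemA t
    unfold RA
    rcases hv : R t with ⟨v, e⟩
    rw [hv] at r0 r1 r2 a2 a3 b3 hm'
    simp only at r0 r1 r2 a2 a3 b3 hm'
    fin_cases v
    · have h0 : t.val < i + j := r0.1 (by decide)
      have h5 : t.val < 2 * (i + j) := by omega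
      rw [if_pos h0]
      rcases b3 with h | h
      · have : t.val ∈ A := hm'.2 ⟨h5, h⟩
        rw [if_pos this, h]; rfl
      · have : ¬ t.val ∈ A := fun hh => e1_ne_e2 ((hm'.1 hh).2.symm.trans h)
        rw [if_neg this, h]; rfl
    · have h0 : ¬ t.val < i + j := fun h => absurd (r0.2 h) (by decide)
      have h5 : t.val < 2 * (i + j) := r1.1 (by decide)
      rw [if_neg h0, if_pos h5]
      rcases b3 with h | h
      · have : t.val ∈ A := hm'.2 ⟨h5, h⟩
        rw [if_pos this, h]; rfl
      · have : ¬ t.val ∈ A := fun hh => e1_ne_e2 ((hm'.1 hh).2.symm.trans h)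
        rw [if_neg this, h]; rfl
    · have h0 : ¬ t.val < i + j := fun h => absurd (r0.2 h) (by decide)
      have h5 : ¬ t.val < 2 * (i + j) := fun h => absurd (r1.2 h) (by decide)
      have h6 : t.val < 2 * (i + j) + i := r2.1 (by decide)
      rw [if_neg h0, if_neg h5, if_pos h6, a2 rfl]; rfl
    · have h0 : ¬ t.val < i + j := fun h => absurd (r0.2 h) (by decide)
      have h5 : ¬ t.val < 2 * (i + j) := fun h => absurd (r1.2 h) (by decide)
      have h6 : ¬ t.val < 2 * (i + j) + i := fun h => absurd (r2.2 h) (by decide)
      rw [if_neg h0, if_neg h5, if_neg h6, a3 rfl]; rfl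

/-- The associated coefficient of `HG i j`. -/
theorem assocCoeff_HG (i j : ℕ) (hm : 0 < i + j) :
    assocCoeff (HG i j) = ((2 * (i + j)).choose (2 * i) : ℚ) * (3 / (8 * ((i + j : ℕ) : ℚ))) := by
  unfold assocCoeff
  rw [(count_HG i j).2.2.1]
  unfold assocCoeffAux
  have : ∀ R ∈ univ.filter (fun R : StarSeq (Fin 4) (3 * (i + j)) => IsRooting (HG i j) R ∧ IsEulerian (arc R)),
      (tau (arc R) : ℚ) / ∏ v ∈ dverts (arc R), (inDeg (arc R) v : ℚ) = 3 / (8 * ((i + j : ℕ) : ℚ)) := by
    intro R hR
    obtain ⟨_, h1, h2⟩ := mem_filter.1 hR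
    exact term_value i j hm rfl R h1 h2
  rw [sum_congr rfl this, sum_const, card_count i j hm, nsmul_eq_mul]

end Pool.Agent.Helper113_veblen
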