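import Mathlib
import Pool.Agent.Helper113_veblen.Number
import Pool.Agent.Helper113_veblen.Classes

namespace Pool.Agent.Helper113_veblen

open Finset
open scoped Classical

theorem countP_rep (p : Finset (Fin 4) → Prop) {i1 : DecidablePred p} (n : ℕ) (a : Finset (Fin 4)) :
    @Multiset.countP _ p i1 (Multiset.replicate n a) = if p a then n else 0 := by
  induction n with
  | zero => simp
  | succ n ih =>
    rw [Multiset.replicate_succ]
    by_cases h : p a
    · rw [Multiset.countP_cons_of_pos _ h, ih, if_pos h, if_pos h]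
    · rw [Multiset.countP_cons_of_neg _ h, ih, if_neg h, if_neg h]

theorem degree_HG (i j : ℕ) (v : Fin 4) :
    degree (HG i j) v = (if v ∈ e1 then 3 * i else 0) + (if v ∈ e2 then 3 * j else 0) := by
  unfold degree HG
  rw [Multiset.countP_add, countP_rep, countP_rep]

theorem infra_HG (i j : ℕ) (hm : 0 < i + j) (E : Finset (Finset (Fin 4))) (h1 : 0 < i → e1 ∈ E)
    (h2 : 0 < j → e2 ∈ E) : IsInfra 3 E (HG i j) := by
  have h4 := (count_HG i j).2.2.2
  refine ⟨⟨?_, ?_⟩, ⟨?_, ?_⟩, ?_⟩
  · intro e he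
    rcases h4 e he with h | h <;> rw [h] <;> decide
  · intro v
    rw [degree_HG]
    fin_cases v <;> simp <;> omega
  · intro h
    have := (count_HG i j).2.2.1
    rw [h, Multiset.card_zero] at this
    omega
  · intro e he f hf
    apply Relation.ReflTransGen.single
    refine ⟨hf, 0, ?_⟩
    rw [mem_inter]
    rcases h4 e he with h | h <;> rcases h4 f hf with h' | h' <;> rw [h, h'] <;> decide
  · intro e he
    unfold HG at he
    rw [Multiset.mem_add] at he
    rcases he with he | he
    · obtain ⟨hn, rfl⟩ := Multiset.mem_replicate.1 he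
      exact h1 (by omega)
    · obtain ⟨hn, rfl⟩ := Multiset.mem_replicate.1 he
      exact h2 (by omega)

theorem infra_struct (E : Finset (Finset (Fin 4))) (hE : ∀ e ∈ E, e = e1 ∨ e = e2)
    (g : MultiHG (Fin 4)) (hg : IsInfra 3 E g) : ∃ i j, 0 < i + j ∧ g = HG i j := by
  obtain ⟨⟨_, hv⟩, ⟨hne, _⟩, hin⟩ := hg
  have hel : ∀ e ∈ g, e = e1 ∨ e = e2 := fun e he => hE e (hin e he)
  have hd2 := hv 2
  have hd3 := hv 3
  have c2 : degree g 2 = Multiset.count e1 g := by
    unfold degree Multiset.count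
    apply Multiset.countP_congr rfl
    intro e he
    rcases hel e he with h | h <;> rw [h] <;> decide
  have c3 : degree g 3 = Multiset.count e2 g := by
    unfold degree Multiset.count
    apply Multiset.countP_congr rfl
    intro e he
    rcases hel e he with h | h <;> rw [h] <;> decide
  rw [c2] at hd2
  rw [c3] at hd3
  obtain ⟨i, hi⟩ := hd2
  obtain ⟨j, hj⟩ := hd3
  have hgeq : g = HG i j := by
    obtain ⟨k1, k2, k3, k4⟩ := count_HG i j
    ext e
    by_cases he1 : e = e1
    · rw [he1, hi, k1]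
    · by_cases he2 : e = e2
      · rw [he2, hj, k2]
      · rw [Multiset.count_eq_zero_of_notMem, Multiset.count_eq_zero_of_notMem]
        · intro h
          rcases k4 e h with h | h
          · exact he1 h
          · exact he2 h
        · intro h
          rcases hel e h with h | h
          · exact he1 h
          · exact he2 h
  refine ⟨i, j, ?_, hgeq⟩
  by_contra h0
  have h1 : i = 0 := by omega
  have h2 : j = 0 := by omega
  apply hne
  rw [hgeq, h1, h2]
  rfl

theorem HG_inj {i j i' j' : ℕ} (h : HG i j = HG i' j') : i = i' ∧ j = j' := by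
  have a := count_HG i j
  have b := count_HG i' j'
  rw [h] at a
  omega

theorem iso_HG {i j i' j' : ℕ} (h : Iso (HG i j) (HG i' j')) :
    (i = i' ∧ j = j') ∨ (i = j' ∧ j = i') := by
  obtain ⟨σ, hσ⟩ := h
  have hc := congrArg Multiset.card hσ
  rw [card_relabel, (count_HG i j).2.2.1, (count_HG i' j').2.2.1] at hc
  have hr : relabel σ (HG i j) = Multiset.replicate (3 * i) (e1.map σ.toEmbedding)
      + Multiset.replicate (3 * j) (e2.map σ.toEmbedding) := by
    unfold relabel HG
    rw [Multiset.map_add, Multiset.map_replicate, Multiset.map_replicate]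
  have hne : e1.map σ.toEmbedding ≠ e2.map σ.toEmbedding := by
    intro h
    exact e1_ne_e2 (Finset.map_injective _ h)
  have hne' := e1_ne_e2
  have k1 := (count_HG i' j').1
  have k2 := (count_HG i' j').2.1
  rw [← hσ, hr, Multiset.count_add, Multiset.count_replicate, Multiset.count_replicate] at k1 k2
  by_cases a1 : e1.map σ.toEmbedding = e1
  · have a2 : ¬ e1.map σ.toEmbedding = e2 := fun h => hne' (a1.symm.trans h)
    have a3 : ¬ e2.map σ.toEmbedding = e1 := fun h => hne (a1.trans h.symm)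
    rw [if_pos a1, if_neg a3] at k1
    left; omega
  · by_cases a2 : e1.map σ.toEmbedding = e2
    · have a3 : ¬ e2.map σ.toEmbedding = e2 := fun h => hne (a2.trans h.symm)
      rw [if_pos a2, if_neg a3] at k2
      right; omega
    · rw [if_neg a1] at k1
      rw [if_neg a2] at k2
      by_cases a3 : e2.map σ.toEmbedding = e1
      · rw [if_pos a3] at k1
        have a4 : ¬ e2.map σ.toEmbedding = e2 := fun h => hne' (a3.symm.trans h)
        rw [if_neg a4] at k2
        right; omega
      · rw [if_neg a3] at k1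
        by_cases a4 : e2.map σ.toEmbedding = e2
        · rw [if_pos a4] at k2
          left; omega
        · rw [if_neg a4] at k2
          left; omega

theorem inv_HG (E : Finset (Finset (Fin 4))) (hE : ∀ e ∈ E, e = e1 ∨ e = e2)
    (g g' : Infra 3 E) (h : Iso g.1 g'.1) : assocCoeff g.1 = assocCoeff g'.1 := by
  obtain ⟨i, j, hm, hg⟩ := infra_struct E hE g.1 g.2
  obtain ⟨i', j', hm', hg'⟩ := infra_struct E hE g'.1 g'.2
  rw [hg, hg'] at h ⊢
  rw [assocCoeff_HG i j hm, assocCoeff_HG i' j' hm']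
  rcases iso_HG h with ⟨rfl, rfl⟩ | ⟨rfl, rfl⟩
  · rfl
  · rw [add_comm j i]
    congr 2
    exact Nat.choose_symm_of_eq_add (by ring)

/-- `∑_{i ≤ m} C(2m, 2i) = 2^{2m-1}` -/
theorem sum_even (m : ℕ) (hm : 0 < m) :
    2 * ∑ i ∈ range (m + 1), (((2 * m).choose (2 * i) : ℕ) : ℚ) = 4 ^ m := by
  have gen : ∀ (f : ℕ → ℚ) (n : ℕ), ∑ k ∈ range (2 * n + 1), f k * (1 + (-1) ^ k)
      = 2 * ∑ i ∈ range (n + 1), f (2 * i) := by
    intro f n
    induction n with
    | zero => simp; ring
    | succ n ih =>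
      rw [show 2 * (n + 1) + 1 = (2 * n + 1) + 1 + 1 by ring, sum_range_succ, sum_range_succ, ih,
        sum_range_succ (fun i => f (2 * i)) (n + 1)]
      have h1 : (-1 : ℚ) ^ (2 * n + 1) = -1 := by
        rw [pow_succ, pow_mul]; norm_num
      have h2 : (-1 : ℚ) ^ (2 * n + 1 + 1) = 1 := by
        rw [show 2 * n + 1 + 1 = 2 * (n + 1) by ring, pow_mul]; norm_num
      rw [h1, h2, show 2 * n + 1 + 1 = 2 * (n + 1) by ring]
      ring
  rw [← gen (fun k => (((2 * m).choose k : ℕ) : ℚ)) m]
  have h1 : ∑ k ∈ range (2 * m + 1), (((2 * m).choose k : ℕ) : ℚ) = 4 ^ m := by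
    have := Nat.sum_range_choose (2 * m)
    rw [pow_mul] at this
    exact_mod_cast this
  have h2 : ∑ k ∈ range (2 * m + 1), (((2 * m).choose k : ℕ) : ℚ) * (-1) ^ k = 0 := by
    have := Int.alternating_sum_range_choose_of_ne (n := 2 * m) (by omega)
    have h3 : ((∑ k ∈ range (2 * m + 1), ((-1 : ℤ) ^ k * ((2 * m).choose k : ℤ)) : ℤ) : ℚ) = 0 := by
      rw [this]; rfl
    push_cast at h3
    rw [← h3]
    apply sum_congr rfl
    intro k _
    ring
  have : ∀ k ∈ range (2 * m + 1), (((2 * m).choose k : ℕ) : ℚ) * (1 + (-1) ^ k)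
      = (((2 * m).choose k : ℕ) : ℚ) + (((2 * m).choose k : ℕ) : ℚ) * (-1) ^ k := by
    intro k _; ring
  rw [sum_congr rfl this, sum_add_distrib, h1, h2, add_zero]

/-- the larger hypergraph -/
def G2 : Finset (Finset (Fin 4)) := {e1, e2}
/-- the single edge -/
def G1 : Finset (Finset (Fin 4)) := {e1}

theorem G2_edges : ∀ e ∈ G2, e = e1 ∨ e = e2 := by
  intro e he
  unfold G2 at he
  rw [mem_insert, mem_singleton] at he
  exact he

theorem G1_edges : ∀ e ∈ G1, e = e1 ∨ e = e2 := by
  intro e he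
  unfold G1 at he
  rw [mem_singleton] at he
  exact Or.inl he

theorem SL_empty (E : Finset (Finset (Fin 4))) (hE : ∀ e ∈ E, e = e1 ∨ e = e2) (j : ℕ)
    (hj : ¬ 3 ∣ j) : SL 3 E j = ∅ := by
  rw [eq_empty_iff_forall_notMem]
  intro g hg
  rw [mem_SL] at hg
  obtain ⟨i, i', hm, hgi⟩ := infra_struct E hE g.1 g.2
  rw [hgi, (count_HG i i').2.2.1] at hg
  exact hj (hg ▸ Dvd.intro _ rfl)

theorem sum_G2 (m : ℕ) (hm : 0 < m) :
    ∑ g ∈ SL 3 G2 (3 * m), assocCoeff g.1 = (3 / (8 * (m : ℚ))) * (4 ^ m / 2) := by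
  have h : ∑ g ∈ SL 3 G2 (3 * m), assocCoeff g.1
      = ∑ i ∈ range (m + 1), (((2 * m).choose (2 * i) : ℕ) : ℚ) * (3 / (8 * (m : ℚ))) := by
    symm
    refine Finset.sum_bij (fun i hi => (⟨HG i (m - i), infra_HG i (m - i)
      (by have := mem_range.1 hi; omega) G2 (fun _ => by decide) (fun _ => by decide)⟩ : Infra 3 G2)) ?_ ?_ ?_ ?_
    · intro i hi
      have := mem_range.1 hi
      rw [mem_SL]
      show Multiset.card (HG i (m - i)) = _
      rw [(count_HG i (m - i)).2.2.1]
      omega
    · intro i hi i' hi' h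
      have h' : HG i (m - i) = HG i' (m - i') := congrArg Subtype.val h
      exact (HG_inj h').1
    · intro g hg
      rw [mem_SL] at hg
      obtain ⟨i, i', hpos, hgi⟩ := infra_struct G2 G2_edges g.1 g.2
      have hg' := hg
      rw [hgi, (count_HG i i').2.2.1] at hg'
      have hsum : i + i' = m := by omega
      refine ⟨i, mem_range.2 (by omega), ?_⟩
      apply Subtype.ext
      show HG i (m - i) = g.1
      rw [hgi]
      congr 1
      omega
    · intro i hi
      have hi' := mem_range.1 hi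
      show _ = assocCoeff (HG i (m - i))
      have hsum : i + (m - i) = m := by omega
      rw [assocCoeff_HG i (m - i) (by omega), hsum]
  rw [h, ← sum_mul]
  have := sum_even m hm
  linear_combination (3 / (8 * (m : ℚ))) / 2 * this

theorem sum_G1 (m : ℕ) (hm : 0 < m) :
    ∑ g ∈ SL 3 G1 (3 * m), assocCoeff g.1 = 3 / (8 * (m : ℚ)) := by
  have hinf : IsInfra 3 G1 (HG m 0) := infra_HG m 0 (by omega) G1 (fun _ => by decide) (fun h => by omega)
  have h : SL 3 G1 (3 * m) = {(⟨HG m 0, hinf⟩ : Infra 3 G1)} := by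
    ext g
    rw [mem_SL, mem_singleton]
    constructor
    · intro hg
      obtain ⟨i, j, hpos, hgi⟩ := infra_struct G1 G1_edges g.1 g.2
      have hj : j = 0 := by
        by_contra hj
        have hmem : e2 ∈ g.1 := by
          rw [hgi]; unfold HG
          rw [Multiset.mem_add]; right
          rw [Multiset.mem_replicate]; exact ⟨by omega, rfl⟩
        have h2 := g.2.2.2 e2 hmem
        unfold G1 at h2
        rw [mem_singleton] at h2
        exact e1_ne_e2 h2.symm
      subst hj
      rw [hgi, (count_HG i 0).2.2.1] at hg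
      apply Subtype.ext
      rw [hgi]
      congr 1
      omega
    · rintro rfl
      show Multiset.card (HG m 0) = _
      rw [(count_HG m 0).2.2.1]; omega
  rw [h, sum_singleton]
  show assocCoeff (HG m 0) = _
  rw [assocCoeff_HG m 0 (by omega)]
  simp

theorem threshold_of (c : ℕ → ℚ) (h0 : c 0 = 1) (q : ℚ) (hq : q ≠ 0) (a : ℕ)
    (hnd : ∀ d : ℕ, ¬ 3 ∣ d → c d = 0)
    (hr : ∀ r : ℕ, ((r : ℚ) + 1) * c (3 * (r + 1)) = q * ((r : ℚ) - a) * c (3 * r)) :
    IsLeast {T : ℕ | ∀ d, T < d → c d = 0} (3 * a) := by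
  have hne : ∀ r, r ≤ a → c (3 * r) ≠ 0 := by
    intro r
    induction r with
    | zero => intro _; rw [mul_zero, h0]; norm_num
    | succ r ih =>
      intro hra hz
      have h1 := hr r
      rw [hz, mul_zero] at h1
      have h2 : ((r : ℚ) - a) ≠ 0 := by
        have hlt : (r : ℚ) < a := by exact_mod_cast hra
        exact sub_ne_zero.2 hlt.ne
      exact (mul_ne_zero (mul_ne_zero hq h2) (ih (by omega))) h1.symm
  have hz : ∀ r, a < r → c (3 * r) = 0 := by
    intro r har
    obtain ⟨t, rfl⟩ := Nat.exists_eq_add_of_lt har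
    clear har
    induction t with
    | zero =>
      have h1 := hr a
      rw [sub_self, mul_zero, zero_mul] at h1
      have h2 : ((a : ℚ) + 1) ≠ 0 := by positivity
      exact (mul_eq_zero.1 h1).resolve_left h2
    | succ t ih =>
      have h1 := hr (a + t + 1)
      rw [ih, mul_zero] at h1
      have h2 : (((a + t + 1 : ℕ) : ℚ) + 1) ≠ 0 := by positivity
      exact (mul_eq_zero.1 h1).resolve_left h2
  constructor
  · intro d hd
    by_cases h3 : 3 ∣ d
    · obtain ⟨r, rfl⟩ := h3
      exact hz r (by omega)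
    · exact hnd d h3
  · intro T hT
    by_contra hlt
    exact hne a le_rfl (hT (3 * a) (by omega))

theorem codeg_zero (k v : ℕ) (E : Finset (Finset (Fin 4))) : codegCoeff k v E 0 = 1 := by
  rw [codeg_eq]
  exact cf_zero _ _ (cs_pos k E) (finite_cls k E)

theorem codeg_rec (E : Finset (Finset (Fin 4))) (hE : ∀ e ∈ E, e = e1 ∨ e = e2) (q : ℚ) (a : ℕ)
    (hs : ∀ m : ℕ, 0 < m → ∑ g ∈ SL 3 E (3 * m), assocCoeff g.1 = (a : ℚ) * q ^ m / (16 * m)) :
    (∀ d : ℕ, ¬ 3 ∣ d → codegCoeff 3 4 E d = 0) ∧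
      ∀ r : ℕ, ((r : ℚ) + 1) * codegCoeff 3 4 E (3 * (r + 1))
        = q * ((r : ℚ) - a) * codegCoeff 3 4 E (3 * r) := by
  apply closed _ (codeg_zero 3 4 E)
  intro d
  have hrec := recur (cs 3 E) (cu 3 4 E) (cs_pos 3 E) (finite_cls 3 E)
    (fun j => -((3 : ℕ) - 1 : ℚ) ^ 4 * ∑ g ∈ SL 3 E j, assocCoeff g.1)
    (fun j => sum_cls 3 4 E (inv_HG E hE) j) d
  rw [codeg_eq, hrec]
  apply sum_congr rfl
  intro j hj
  have hj' := mem_Icc.1 hj
  rw [codeg_eq]
  congr 1
  by_cases h3 : 3 ∣ j
  · obtain ⟨m, rfl⟩ := h3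
    rw [if_pos (Dvd.intro _ rfl), hs m (by omega), Nat.mul_div_cancel_left _ (by norm_num)]
    have hm : (m : ℚ) ≠ 0 := by
      have : m ≠ 0 := by omega
      exact_mod_cast this
    push_cast
    field_simp
    ring
  · rw [if_neg h3, SL_empty E hE j h3, sum_empty, mul_zero, mul_zero]

theorem threshold_G2 : IsThreshold 3 4 G2 9 := by
  obtain ⟨h1, h2⟩ := codeg_rec G2 G2_edges 4 3 (by
    intro m hm
    rw [sum_G2 m hm]
    have hm' : (m : ℚ) ≠ 0 := by
      have : m ≠ 0 := by omega
      exact_mod_cast this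
    push_cast
    field_simp
    ring)
  exact threshold_of _ (codeg_zero 3 4 G2) 4 (by norm_num) 3 h1 h2

theorem threshold_G1 : IsThreshold 3 4 G1 18 := by
  obtain ⟨h1, h2⟩ := codeg_rec G1 G1_edges 1 6 (by
    intro m hm
    rw [sum_G1 m hm]
    have hm' : (m : ℚ) ≠ 0 := by
      have : m ≠ 0 := by omega
      exact_mod_cast this
    push_cast
    field_simp
    ring)
  exact threshold_of _ (codeg_zero 3 4 G1) 1 (by norm_num) 6 h1 h2

end Pool.Agent.Helper113_veblen
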